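import Pool.Agent.H742R2.TypeI

set_option autoImplicit false

namespace Pool.Agent.H742R2

open scoped ComplexOrder InnerProductSpace
open ContinuousLinearMap UniformSpace

universe u

section

variable {D : Type u} [CStarAlgebra D]

/-- a non-unital subalgebra containing one is unital -/
def toUnital (N : NonUnitalStarSubalgebra ℂ D) (h1 : (1 : D) ∈ N) : StarSubalgebra ℂ D where
  carrier := N
  mul_mem' ha hb := N.mul_mem ha hb
  add_mem' ha hb := N.add_mem ha hb
  algebraMap_mem' r := by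
    rw [Algebra.algebraMap_eq_smul_one]
    exact N.smul_mem' r h1
  star_mem' ha := N.star_mem' ha

lemma mem_toUnital (N : NonUnitalStarSubalgebra ℂ D) (h1 : (1 : D) ∈ N) (x : D) :
    x ∈ toUnital N h1 ↔ x ∈ N := Iff.rfl

lemma one_mem_of_close (N : NonUnitalStarSubalgebra ℂ D) (hN : IsClosed (N : Set D)) (x : D) (hx : x ∈ N)
    (h : ‖1 - x‖ < 1) : (1 : D) ∈ N := by
  have h1 : ∀ n : ℕ, 1 - (1 - x) ^ n ∈ N := by
    intro n
    induction n with
    | zero => simp
    | succ n ih =>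
      have e : 1 - (1 - x) ^ (n + 1) = (1 - (1 - x) ^ n) + x - (1 - (1 - x) ^ n) * x := by
        rw [pow_succ]; noncomm_ring
      rw [e]
      exact N.sub_mem (N.add_mem ih hx) (N.mul_mem ih hx)
  have h2 : Filter.Tendsto (fun n : ℕ => 1 - (1 - x) ^ n) Filter.atTop (nhds (1 - 0)) := by
    refine Filter.Tendsto.sub tendsto_const_nhds ?_
    exact tendsto_pow_atTop_nhds_zero_of_norm_lt_one h
  rw [sub_zero] at h2
  exact hN.mem_of_tendsto h2 (Filter.Eventually.of_forall h1)

theorem not_locallyTypeI {A : Type u} [CStarAlgebra A] (ev : A →⋆ₐ[ℂ] D) (f₁ f₂ : A)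
    (h11 : star (ev f₁) * ev f₁ = 1) (h22 : star (ev f₂) * ev f₂ = 1) (h12 : star (ev f₁) * ev f₂ = 0)
    (hD : Nontrivial D) : ¬ IsLocallyTypeI A := by
  classical
  intro hloc
  obtain ⟨B, hBc, hBI, hB⟩ := hloc {f₁, f₂} (1 / 16) (by norm_num)
  obtain ⟨b₁, hb₁, hfb₁⟩ := hB f₁ (by simp)
  obtain ⟨b₂, hb₂, hfb₂⟩ := hB f₂ (by simp)
  -- norm bounds
  have hn : ∀ s : D, star s * s = 1 → ‖s‖ = 1 := by
    intro s hs
    have := CStarRing.norm_star_mul_self (x := s)
    rw [hs, CStarRing.norm_one] at this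
    nlinarith [norm_nonneg s]
  have hs1 := hn _ h11
  have hs2 := hn _ h22
  have hd1 : ‖ev f₁ - ev b₁‖ ≤ 1 / 16 := by
    rw [← map_sub]
    exact (NonUnitalStarAlgHom.norm_apply_le ev _).trans hfb₁.le
  have hd2 : ‖ev f₂ - ev b₂‖ ≤ 1 / 16 := by
    rw [← map_sub]
    exact (NonUnitalStarAlgHom.norm_apply_le ev _).trans hfb₂.le
  have hclose : ∀ s t c d : D, ‖s‖ = 1 → ‖t‖ = 1 → ‖s - c‖ ≤ 1 / 16 → ‖t - d‖ ≤ 1 / 16 →
      ‖star c * d - star s * t‖ ≤ 1 / 4 := by
    intro s t c d hs ht hc hd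
    have e : star c * d - star s * t = -(star (s - c) * d) - star s * (t - d) := by
      rw [star_sub]; noncomm_ring
    have hd' : ‖d‖ ≤ 17 / 16 := by
      have : d = t - (t - d) := by abel
      calc ‖d‖ = ‖t - (t - d)‖ := by rw [← this]
        _ ≤ ‖t‖ + ‖t - d‖ := norm_sub_le _ _
        _ ≤ 1 + 1 / 16 := by rw [ht]; gcongr
        _ = 17 / 16 := by norm_num
    rw [e]
    calc ‖-(star (s - c) * d) - star s * (t - d)‖ ≤ ‖-(star (s - c) * d)‖ + ‖star s * (t - d)‖ := norm_sub_le _ _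
      _ ≤ ‖star (s - c)‖ * ‖d‖ + ‖star s‖ * ‖t - d‖ := by
        rw [norm_neg]
        exact add_le_add (norm_mul_le _ _) (norm_mul_le _ _)
      _ ≤ (1 / 16) * (17 / 16) + 1 * (1 / 16) := by
        rw [norm_star, norm_star, hs]
        gcongr
      _ ≤ 1 / 4 := by norm_num
  have hc11 := hclose _ _ _ _ hs1 hs1 hd1 hd1
  have hc22 := hclose _ _ _ _ hs2 hs2 hd2 hd2
  have hc12 := hclose _ _ _ _ hs1 hs2 hd1 hd2
  rw [h11] at hc11
  rw [h22] at hc22
  rw [h12, sub_zero] at hc12
  -- the closure of the image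
  let N : NonUnitalStarSubalgebra ℂ D := (B.map (ev : A →⋆ₙₐ[ℂ] D)).topologicalClosure
  have hNc : IsClosed (N : Set D) := NonUnitalStarSubalgebra.isClosed_topologicalClosure _
  have hmemN : ∀ b ∈ B, ev b ∈ N := by
    intro b hb
    exact NonUnitalStarSubalgebra.le_topologicalClosure _ ⟨b, hb, rfl⟩
  have h1N : (1 : D) ∈ N := by
    refine one_mem_of_close N hNc (star (ev b₁) * ev b₁) (N.mul_mem (N.star_mem' (hmemN _ hb₁)) (hmemN _ hb₁)) ?_
    rw [norm_sub_rev]
    exact lt_of_le_of_lt hc11 (by norm_num)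
  let C := toUnital N h1N
  have hCc : IsClosed (C : Set D) := hNc
  let _ : CStarAlgebra C := StarSubalgebra.cstarAlgebra C (h_closed := hCc)
  have hCnt : Nontrivial C := inferInstance
  -- the map from `B`
  let ρ : B →⋆ₙₐ[ℂ] C :=
    { toFun := fun b => ⟨ev b, hmemN b b.2⟩
      map_smul' := fun c x => Subtype.ext (map_smul ev c (x : A))
      map_zero' := Subtype.ext (map_zero ev)
      map_add' := fun x y => Subtype.ext (map_add ev (x : A) y)
      map_mul' := fun x y => Subtype.ext (map_mul ev (x : A) y)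
      map_star' := fun x => Subtype.ext (map_star ev (x : A)) }
  have hρval : ∀ b, ((ρ b : C) : D) = ev b := fun b => rfl
  have hdense : DenseRange ρ := by
    intro c
    rw [closure_subtype]
    have hc : (c : D) ∈ closure ((B.map (ev : A →⋆ₙₐ[ℂ] D) : NonUnitalStarSubalgebra ℂ D) : Set D) := c.2
    refine closure_mono ?_ hc
    rintro _ ⟨b, hb, rfl⟩
    exact ⟨ρ ⟨b, hb⟩, ⟨⟨b, hb⟩, rfl⟩, rfl⟩
  obtain ⟨H, i1, i2, i3, π, hH, hfd⟩ := exists_fd_rep (C := C) (by
    intro H i1 i2 i3 π hξ hirr T hT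
    have hcont : Continuous π := by
      refine AddMonoidHomClass.continuous_of_bound π 1 (fun c => ?_)
      rw [one_mul]
      exact NonUnitalStarAlgHom.norm_apply_le π c
    let π' : B →⋆ₙₐ[ℂ] (H →L[ℂ] H) := (π : C →⋆ₙₐ[ℂ] (H →L[ℂ] H)).comp ρ
    have hπ' : ∀ b, π' b = π (ρ b) := fun b => rfl
    have hirr' : IsIrreducibleRep π' := by
      refine ⟨?_, ?_⟩
      · intro h0
        obtain ⟨ξ, hξ⟩ := hξ
        have h3 : ∀ c : C, π c = 0 := by
          intro c
          have hcl : IsClosed {c : C | π c = 0} := isClosed_eq hcont continuous_const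
          have hsub : Set.range ρ ⊆ {c : C | π c = 0} := by
            rintro _ ⟨b, rfl⟩
            show π (ρ b) = 0
            rw [← hπ', h0]; rfl
          exact closure_minimal hsub hcl (hdense c)
        have h4 := h3 1
        rw [map_one] at h4
        have h5 := congrArg (fun T : H →L[ℂ] H => T ξ) h4
        exact hξ h5
      · intro K hK hinv
        refine hirr K hK ?_
        intro c x hx
        have hcl : IsClosed {c : C | π c x ∈ K} := by
          have h6 : Continuous fun c : C => π c x := by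
            exact (ContinuousLinearMap.apply ℂ H x).continuous.comp hcont
          exact hK.preimage h6
        have hsub : Set.range ρ ⊆ {c : C | π c x ∈ K} := by
          rintro _ ⟨b, rfl⟩
          exact hinv b x hx
        exact closure_minimal hsub hcl (hdense c)
    obtain ⟨b, hb⟩ := hBI H π' hirr' T hT
    exact ⟨ρ b, hb⟩)
  have hle : ∀ c : C, ‖π c‖ ≤ ‖(c : D)‖ := fun c => NonUnitalStarAlgHom.norm_apply_le π c
  refine not_fd hH (π (ρ ⟨b₁, hb₁⟩)) (π (ρ ⟨b₂, hb₂⟩)) ?_ ?_ ?_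
  · have := hle (star (ρ ⟨b₁, hb₁⟩) * ρ ⟨b₁, hb₁⟩ - 1)
    rw [map_sub, map_mul, map_star, map_one] at this
    exact this.trans hc11
  · have := hle (star (ρ ⟨b₂, hb₂⟩) * ρ ⟨b₂, hb₂⟩ - 1)
    rw [map_sub, map_mul, map_star, map_one] at this
    exact this.trans hc22
  · have := hle (star (ρ ⟨b₁, hb₁⟩) * ρ ⟨b₂, hb₂⟩)
    rw [map_mul, map_star] at this
    exact this.trans hc12

end

end Pool.Agent.H742R2
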