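import Pool.Agent.H742R2.Conv
import Pool.Agent.H742R2.Obstruct

set_option autoImplicit false

namespace Pool.Agent.H742R2

open scoped ComplexOrder InnerProductSpace unitInterval
open ContinuousLinearMap Pool.Agent.Helper234.Nuc

/-- the Cuntz algebra as a C*-algebra -/
def DT : Type := ↥DS

noncomputable instance : CStarAlgebra DT := StarSubalgebra.cstarAlgebra DS

/-- the inclusion -/
noncomputable def incD : DT →⋆ₐ[ℂ] (HH →L[ℂ] HH) := DS.subtype

lemma incD_inj : Function.Injective incD := Subtype.val_injective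
lemma norm_incD (x : DT) : ‖incD x‖ = ‖x‖ := rfl
lemma incD_mem (x : DT) : incD x ∈ DS := x.2

/-- constructor -/
def mkD (x : HH →L[ℂ] HH) (hx : x ∈ DS) : DT := ⟨x, hx⟩
lemma incD_mkD (x : HH →L[ℂ] HH) (hx : x ∈ DS) : incD (mkD x hx) = x := rfl

/-- evaluation -/
noncomputable def evI (t : I) : C(I, DT) →⋆ₐ[ℂ] DT where
  toFun f := f t
  map_one' := rfl
  map_mul' _ _ := rfl
  map_zero' := rfl
  map_add' _ _ := rfl
  commutes' _ := rfl
  map_star' _ := rfl

/-- The unitized cone over the Cuntz algebra -/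
noncomputable def AS : StarSubalgebra ℂ C(I, DT) :=
  (⊥ : StarSubalgebra ℂ DT).comap (evI 0)

lemma mem_AS (f : C(I, DT)) : f ∈ AS ↔ ∃ c : ℂ, algebraMap ℂ DT c = f 0 := by
  unfold AS
  rw [StarSubalgebra.mem_comap, StarSubalgebra.mem_bot]
  rfl

lemma isClosed_range_DT : IsClosed (Set.range (algebraMap ℂ DT)) := by
  have : Set.range (algebraMap ℂ DT) = (Submodule.span ℂ {(1 : DT)} : Set DT) := by
    ext x
    rw [Set.mem_range, SetLike.mem_coe, Submodule.mem_span_singleton]
    simp only [Algebra.algebraMap_eq_smul_one]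
  rw [this]
  exact Submodule.closed_of_finiteDimensional _

instance isClosed_AS : IsClosed (AS : Set C(I, DT)) := by
  have h2 : (AS : Set C(I, DT)) = (fun f : C(I, DT) => f 0) ⁻¹' (Set.range (algebraMap ℂ DT)) := by
    ext f
    exact mem_AS f
  rw [h2]
  exact isClosed_range_DT.preimage (continuous_eval_const (F := C(I, DT)) (0 : I))

/-- the unitized cone as a C*-algebra -/
def AT : Type := ↥AS

noncomputable instance : CStarAlgebra AT := StarSubalgebra.cstarAlgebra AS

/-- the inclusion -/
noncomputable def incA : AT →⋆ₐ[ℂ] C(I, DT) := AS.subtype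

lemma incA_inj : Function.Injective incA := Subtype.val_injective
lemma norm_incA (x : AT) : ‖incA x‖ = ‖x‖ := rfl
lemma incA_mem (x : AT) : incA x ∈ AS := x.2

/-- constructor -/
def mkA (x : C(I, DT)) (hx : x ∈ AS) : AT := ⟨x, hx⟩
lemma incA_mkA (x : C(I, DT)) (hx : x ∈ AS) : incA (mkA x hx) = x := rfl

/-- evaluation as an element of the Cuntz algebra -/
noncomputable def evD (t : I) : AT →⋆ₐ[ℂ] DT := (evI t).comp incA

/-- evaluation as an operator -/
noncomputable def evT (t : I) : AT →⋆ₐ[ℂ] (HH →L[ℂ] HH) := incD.comp (evD t)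

lemma evD_apply (t : I) (f : AT) : evD t f = incA f t := rfl
lemma evT_apply (t : I) (f : AT) : evT t f = incD (incA f t) := rfl

lemma norm_AT_le {f : AT} {C : ℝ} (hC : 0 ≤ C) : ‖f‖ ≤ C ↔ ∀ t, ‖evT t f‖ ≤ C := by
  rw [← norm_incA, ContinuousMap.norm_le _ hC]
  rfl

lemma norm_evT_le (f : AT) (t : I) : ‖evT t f‖ ≤ ‖f‖ := (norm_AT_le (norm_nonneg _)).mp le_rfl t

lemma AT_ext {f g : AT} (h : ∀ t, evT t f = evT t g) : f = g := by
  apply incA_inj
  ext1 t
  exact incD_inj (h t)

/-! ### separability -/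

instance : TopologicalSpace.SeparableSpace DT := by
  have h1 : TopologicalSpace.IsSeparable (GG : Set (HH →L[ℂ] HH)) := by
    have : GG ⊆ Set.range (fun pq : ℕ × ℕ => TT pq.1 * star (TT pq.2)) := by
      rintro x ⟨p, q, _, _, rfl⟩
      exact ⟨(p, q), rfl⟩
    exact (Set.countable_range _).isSeparable.mono this
  have h2 : TopologicalSpace.IsSeparable (DS : Set (HH →L[ℂ] HH)) := by
    rw [coe_DS]
    exact (h1.span (R := ℂ)).closure
  exact h2.separableSpace

instance : TopologicalSpace.SeparableSpace AT := by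
  have : SecondCountableTopology DT := UniformSpace.secondCountable_of_separable DT
  have : SecondCountableTopology C(I, DT) := inferInstance
  have : SecondCountableTopology ↥AS := inferInstance
  exact (inferInstance : TopologicalSpace.SeparableSpace ↥AS)

end Pool.Agent.H742R2
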