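import Pool.Agent.H742R2.DAlg

set_option autoImplicit false

namespace Pool.Agent.H742R2

open scoped ComplexOrder InnerProductSpace
open ContinuousLinearMap Pool.Agent.Helper234.Nuc

lemma norm_star_TT_le (p : ℕ) : ‖star (TT p)‖ ≤ 1 := by
  have h : ‖star (TT p)‖ = ‖TT p‖ := LinearIsometryEquiv.norm_map ContinuousLinearMap.adjoint (TT p)
  rw [h]; exact norm_TT_le p

lemma norm_TT_mul_le (p q : ℕ) : ‖TT p * star (TT q)‖ ≤ 1 := by
  calc _ ≤ ‖TT p‖ * ‖star (TT q)‖ := norm_mul_le _ _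
    _ ≤ 1 * 1 := mul_le_mul (norm_TT_le _) (norm_star_TT_le _) (norm_nonneg _) zero_le_one
    _ = 1 := one_mul 1

lemma entry_of (p q m : ℕ) : ⟪bb (act p m), (TT p * star (TT q)) (bb (act q m))⟫_ℂ = 1 := by
  show ⟪bb (act p m), TT p (star (TT q) (bb (act q m)))⟫_ℂ = 1
  rw [TT_star_apply, TT_apply, inner_bb, if_pos rfl]

lemma entry_not (p q a b : ℕ) (h : ¬ ∃ m, act p m = a ∧ act q m = b) :
    ⟪bb a, (TT p * star (TT q)) (bb b)⟫_ℂ = 0 := by
  show ⟪bb a, TT p (star (TT q) (bb b))⟫_ℂ = 0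
  by_cases hb : ∃ m, act q m = b
  · obtain ⟨m, rfl⟩ := hb
    rw [TT_star_apply, TT_apply, inner_bb, if_neg]
    intro e
    exact h ⟨m, e.symm, rfl⟩
  · push Not at hb
    rw [TT_star_apply_not _ _ hb, map_zero, inner_zero_right]

/-- the relevant indices -/
def SS (N p q : ℕ) : Finset ℕ :=
  (Finset.range (2 ^ N)).filter (fun m => act p m ∈ Finset.Ico 1 (2 ^ N) ∧ act q m ∈ Finset.Ico 1 (2 ^ N))

lemma sum_entries (N p q : ℕ) (F : ℕ → ℕ → (HH →L[ℂ] HH)) :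
    ∑ a ∈ Finset.Ico 1 (2 ^ N), ∑ b ∈ Finset.Ico 1 (2 ^ N), ⟪bb a, (TT p * star (TT q)) (bb b)⟫_ℂ • F a b =
      ∑ m ∈ SS N p q, F (act p m) (act q m) := by
  rw [← Finset.sum_product' (f := fun a b => ⟪bb a, (TT p * star (TT q)) (bb b)⟫_ℂ • F a b)]
  have h1 : (SS N p q).image (fun m => (act p m, act q m)) ⊆ Finset.Ico 1 (2 ^ N) ×ˢ Finset.Ico 1 (2 ^ N) := by
    intro x hx
    rw [Finset.mem_image] at hx
    obtain ⟨m, hm, rfl⟩ := hx
    unfold SS at hm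
    rw [Finset.mem_filter] at hm
    exact Finset.mem_product.mpr hm.2
  rw [← Finset.sum_subset h1]
  · rw [Finset.sum_image]
    · refine Finset.sum_congr rfl fun m _ => ?_
      rw [entry_of, one_smul]
    · intro x _ y _ hxy
      simp only [Prod.mk.injEq] at hxy
      exact act_inj p hxy.1
  · rintro ⟨a, b⟩ hab hnot
    rw [entry_not, zero_smul]
    rintro ⟨m, rfl, rfl⟩
    apply hnot
    rw [Finset.mem_image]
    refine ⟨m, ?_, rfl⟩
    unfold SS
    rw [Finset.mem_product] at hab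
    rw [Finset.mem_filter]
    refine ⟨?_, hab⟩
    rw [Finset.mem_range]
    have := (Finset.mem_Ico.mp hab.1).2
    exact lt_of_le_of_lt (le_act p m) this

lemma SS_erase {N p q : ℕ} (hp : 1 ≤ p) (hq : 1 ≤ q) (hN : max (Nat.log 2 p) (Nat.log 2 q) ≤ N) :
    (SS N p q).erase 0 = Finset.Ico 1 (2 ^ (N - max (Nat.log 2 p) (Nat.log 2 q))) := by
  ext m
  rw [Finset.mem_erase]
  unfold SS
  rw [Finset.mem_filter, Finset.mem_range, Finset.mem_Ico, Finset.mem_Ico, Finset.mem_Ico]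
  have key : ∀ r : ℕ, 1 ≤ r → 1 ≤ m → (act r m < 2 ^ N ↔ Nat.log 2 r + Nat.log 2 m < N) := by
    intro r hr hm
    rw [← log_act hr hm]
    have h0 : act r m ≠ 0 := by have := act_pos (p := r) hm; omega
    rw [Nat.log_lt_iff_lt_pow (by norm_num) h0]
  constructor
  · rintro ⟨h0, h1, ⟨_, h2⟩, ⟨_, h3⟩⟩
    have hm : 1 ≤ m := by omega
    refine ⟨hm, ?_⟩
    rw [key p hp hm] at h2
    rw [key q hq hm] at h3
    rw [← Nat.log_lt_iff_lt_pow (by norm_num) (by omega)]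
    omega
  · rintro ⟨hm, h1⟩
    rw [← Nat.log_lt_iff_lt_pow (by norm_num) (by omega)] at h1
    refine ⟨by omega, ?_, ⟨act_pos hm, ?_⟩, ⟨act_pos hm, ?_⟩⟩
    · rw [← Nat.log_lt_iff_lt_pow (by norm_num) (by omega)]; omega
    · rw [key p hp hm]; omega
    · rw [key q hq hm]; omega

lemma Phi_GG {N p q : ℕ} (hp : 1 ≤ p) (hq : 1 ≤ q) (hN : max (Nat.log 2 p) (Nat.log 2 q) ≤ N) (hN0 : 0 < N) :
    ‖Phi N (TT p * star (TT q)) - TT p * star (TT q)‖ ≤ ((max (Nat.log 2 p) (Nat.log 2 q) : ℕ) + 1) * (N : ℝ)⁻¹ := by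
  set K := max (Nat.log 2 p) (Nat.log 2 q) with hK
  set x := TT p * star (TT q) with hx
  have hsum : ∑ a : WW N, ∑ b : WW N, ⟪bb a, x (bb b)⟫_ℂ • (TT a * star (TT b)) =
      ∑ m ∈ SS N p q, TT (act p m) * star (TT (act q m)) := by
    rw [← sum_entries N p q (fun a b => TT a * star (TT b))]
    rw [← Finset.sum_coe_sort (Finset.Ico 1 (2 ^ N))]
    refine Finset.sum_congr rfl fun a _ => ?_
    rw [← Finset.sum_coe_sort (Finset.Ico 1 (2 ^ N))]
  have h2 : ∑ m ∈ (SS N p q).erase 0, TT (act p m) * star (TT (act q m)) = ((N - K : ℕ) : ℂ) • x := by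
    rw [SS_erase hp hq hN]
    have h3 : ∀ m ∈ Finset.Ico 1 (2 ^ (N - K)), TT (act p m) * star (TT (act q m)) =
        TT p * (TT m * star (TT m)) * star (TT q) := by
      intro m hm
      rw [Finset.mem_Ico] at hm
      rw [← TT_mul hp hm.1, ← TT_mul hq hm.1, star_mul]
      noncomm_ring
    rw [Finset.sum_congr rfl h3, ← Finset.sum_mul, ← Finset.mul_sum, sum_TT, mul_smul_comm, smul_mul_assoc, mul_one]
  obtain ⟨z, hz, hz2⟩ : ∃ z : HH →L[ℂ] HH, ‖z‖ ≤ 1 ∧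
      ∑ m ∈ SS N p q, TT (act p m) * star (TT (act q m)) = z + ((N - K : ℕ) : ℂ) • x := by
    by_cases h0 : 0 ∈ SS N p q
    · refine ⟨TT (act p 0) * star (TT (act q 0)), ?_, ?_⟩
      · exact norm_TT_mul_le _ _
      · rw [← h2, Finset.add_sum_erase _ (fun m => TT (act p m) * star (TT (act q m))) h0]
    · refine ⟨0, by rw [norm_zero]; exact zero_le_one, ?_⟩
      rw [zero_add, ← h2, Finset.erase_eq_of_notMem h0]
  have hNc : (N : ℂ) ≠ 0 := by exact_mod_cast hN0.ne'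
  have e : Phi N x - x = ((N : ℂ)⁻¹) • (z - (K : ℂ) • x) := by
    rw [Phi_apply, hsum, hz2]
    have h4 : ((N - K : ℕ) : ℂ) = (N : ℂ) - (K : ℂ) := by
      rw [Nat.cast_sub hN]
    rw [h4]
    have h5 : x = ((N : ℂ)⁻¹) • ((N : ℂ) • x) := by rw [smul_smul, inv_mul_cancel₀ hNc, one_smul]
    conv_lhs => enter [2]; rw [h5]
    rw [← smul_sub]
    congr 1
    rw [sub_smul]
    abel
  rw [e, norm_smul, norm_inv, Complex.norm_natCast, mul_comm]
  gcongr
  have hxn : ‖x‖ ≤ 1 := norm_TT_mul_le _ _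
  calc ‖z - (K : ℂ) • x‖ ≤ ‖z‖ + ‖(K : ℂ) • x‖ := norm_sub_le _ _
    _ ≤ 1 + K * 1 := by
      rw [norm_smul, Complex.norm_natCast]
      gcongr
    _ = K + 1 := by ring

open Filter Topology in
lemma Phi_tendsto {x : HH →L[ℂ] HH} (hx : x ∈ DS) : Tendsto (fun N => Phi N x) atTop (𝓝 x) := by
  -- on the spanning set
  have h1 : ∀ x ∈ GG, Tendsto (fun N => Phi N x) atTop (𝓝 x) := by
    rintro x ⟨p, q, hp, hq, rfl⟩
    rw [tendsto_iff_norm_sub_tendsto_zero]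
    have h2 : Tendsto (fun N : ℕ => ((max (Nat.log 2 p) (Nat.log 2 q) : ℕ) + 1 : ℝ) * (N : ℝ)⁻¹) atTop (𝓝 0) := by
      have := (tendsto_inv_atTop_nhds_zero_nat (𝕜 := ℝ)).const_mul ((max (Nat.log 2 p) (Nat.log 2 q) : ℕ) + 1 : ℝ)
      rwa [mul_zero] at this
    refine squeeze_zero' (Eventually.of_forall fun N => norm_nonneg _) ?_ h2
    filter_upwards [eventually_ge_atTop (max (Nat.log 2 p) (Nat.log 2 q)), eventually_gt_atTop 0] with N hN hN0
    exact Phi_GG hp hq hN hN0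
  have h2 : ∀ x ∈ Submodule.span ℂ GG, Tendsto (fun N => Phi N x) atTop (𝓝 x) := by
    intro x hx
    refine Submodule.span_induction (p := fun x _ => Tendsto (fun N => Phi N x) atTop (𝓝 x)) ?_ ?_ ?_ ?_ hx
    · exact h1
    · simp only [map_zero]; exact tendsto_const_nhds
    · intro x y _ _ hx hy; simp only [map_add]; exact hx.add hy
    · intro c x _ hx; simp only [map_smul]; exact hx.const_smul c
  rw [Metric.tendsto_atTop]
  intro ε hε
  have hx' : x ∈ closure (Submodule.span ℂ GG : Set (HH →L[ℂ] HH)) := hx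
  obtain ⟨y, hy, hxy⟩ := Metric.mem_closure_iff.mp hx' (ε / 3) (by positivity)
  obtain ⟨N0, hN0⟩ := (Metric.tendsto_atTop.mp (h2 y hy)) (ε / 3) (by positivity)
  refine ⟨max N0 1, fun N hN => ?_⟩
  have h3 := hN0 N (le_of_max_le_left hN)
  have h4 : 0 < N := le_of_max_le_right hN
  rw [dist_eq_norm] at h3 hxy ⊢
  have e : Phi N x - x = Phi N (x - y) + (Phi N y - y) - (x - y) := by rw [map_sub]; abel
  rw [e]
  calc ‖Phi N (x - y) + (Phi N y - y) - (x - y)‖ ≤ ‖Phi N (x - y)‖ + ‖Phi N y - y‖ + ‖x - y‖ :=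
        (norm_sub_le _ _).trans (by gcongr; exact norm_add_le _ _)
    _ ≤ ‖x - y‖ + ‖Phi N y - y‖ + ‖x - y‖ := by gcongr; exact norm_Phi_le N h4 _
    _ < ε := by linarith

end Pool.Agent.H742R2
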