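import Pool.Agent.Helper234.Nuc.A

set_option autoImplicit false
open scoped ComplexOrder
open scoped Matrix.Norms.L2Operator
open scoped InnerProductSpace

namespace Pool.Agent.H742R2

open Pool.Agent.Helper234.Nuc

universe u v w

/-- A criterion for nuclearity. -/
lemma isNuclear_of_approx {A : Type u} [NonUnitalCStarAlgebra A]
    (h : ∀ (F : Finset A) (ε : ℝ), 0 < ε → ∃ (ι : Type v) (Q : Type w) (_ : Fintype ι) (_ : DecidableEq ι)
      (_ : Fintype Q) (φ : A →ₗ[ℂ] Matrix ι ι ℂ) (K : Q → ι → A),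
      (∀ (m : ℕ) (x : Fin m → A),
        (Matrix.of (fun p q : Fin m × ι => φ (star (x p.1) * x q.1) p.2 q.2)).PosSemidef) ∧
      (∀ a : A, ‖a‖ ≤ 1 → (1 - star (φ a) * φ a).PosSemidef) ∧
      ‖kr K 1‖ ≤ 1 ∧ ∀ a ∈ F, ‖kr K (φ a) - a‖ < ε) :
    IsNuclear A := by
  classical
  intro F ε hε
  obtain ⟨ι, Q, i1, i2, i3, φ, K, hcp, hcontr, hK, hF⟩ := h F ε hε
  -- reindexing
  let e : ι ≃ Fin (Fintype.card ι) := Fintype.equivFin ι
  let n := Fintype.card ι
  let Re : Matrix (Fin n) (Fin n) ℂ →ₗ[ℂ] Matrix ι ι ℂ := (Matrix.reindexLinearEquiv ℂ ℂ e.symm e.symm).toLinearMap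
  let Φ : A →ₗ[ℂ] Matrix (Fin n) (Fin n) ℂ :=
    (Matrix.reindexLinearEquiv ℂ ℂ e e).toLinearMap ∘ₗ φ
  have hΦ : ∀ a p q, Φ a p q = φ a (e.symm p) (e.symm q) := fun _ _ _ => rfl
  have hRe : ∀ M p q, Re M p q = M (e p) (e q) := fun _ _ _ => rfl
  have hRemul : ∀ M N, Re (star M * N) = star (Re M) * Re N := by
    intro M N
    ext p q
    rw [hRe, Matrix.mul_apply, Matrix.mul_apply]
    refine (Fintype.sum_equiv e _ _ (fun w => ?_)).symm
    rfl
  have hReone : Re 1 = 1 := by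
    ext p q
    rw [hRe, Matrix.one_apply, Matrix.one_apply]
    simp
  have hRePSD : ∀ M, M.PosSemidef → (Re M).PosSemidef := by
    intro M hM
    exact hM.submatrix e
  refine ⟨n, Φ, (kr K) ∘ₗ Re, ?_, ?_, ?_, ?_, ?_⟩
  · intro m x
    have := (hcp m x).submatrix (fun p : Fin m × Fin n => (p.1, e.symm p.2))
    exact this
  · intro m Y y
    obtain ⟨s, hs⟩ := kr_cp K m (fun i => Re (Y i)) y
    refine ⟨s, ?_⟩
    rw [← hs]
    refine Finset.sum_congr rfl fun i _ => Finset.sum_congr rfl fun j _ => ?_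
    rw [LinearMap.comp_apply, hRemul]
  · intro a ha
    have h3 := (hcontr a ha).submatrix e.symm
    have : (1 - star (φ a) * φ a).submatrix e.symm e.symm = 1 - star (Φ a) * Φ a := by
      ext p q
      rw [Matrix.submatrix_apply, Matrix.sub_apply, Matrix.sub_apply, Matrix.mul_apply, Matrix.mul_apply,
        Matrix.one_apply, Matrix.one_apply]
      congr 1
      · simp
      · refine (Fintype.sum_equiv e _ _ (fun w => ?_))
        rw [Matrix.star_apply, Matrix.star_apply, hΦ, hΦ, e.symm_apply_apply]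
    rw [← this]; exact h3
  · intro M hM
    rw [LinearMap.comp_apply]
    apply kr_contr K hK
    have := hRePSD _ hM
    rwa [map_sub, hReone, hRemul] at this
  · intro a ha
    have e1 : ((kr K) ∘ₗ Re) (Φ a) = kr K (φ a) := by
      rw [LinearMap.comp_apply]
      congr 1
      ext p q
      rw [hRe, hΦ, e.symm_apply_apply, e.symm_apply_apply]
    rw [e1]
    exact hF a ha

section compression

variable {H : Type u} [NormedAddCommGroup H] [InnerProductSpace ℂ H] [CompleteSpace H]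
variable {J : Type v} {W : Type w} [Fintype J] [Fintype W] [DecidableEq J] [DecidableEq W]

/-- block compression of a family of operators -/
noncomputable def bc (e : W → H) (T : J → (H →L[ℂ] H)) : Matrix (J × W) (J × W) ℂ :=
  Matrix.of fun p q => if p.1 = q.1 then ⟪e p.2, T p.1 (e q.2)⟫_ℂ else 0

omit [CompleteSpace H] [Fintype J] [Fintype W] [DecidableEq W] in
lemma bc_apply (e : W → H) (T : J → (H →L[ℂ] H)) (p q : J × W) :
    bc e T p q = if p.1 = q.1 then ⟪e p.2, T p.1 (e q.2)⟫_ℂ else 0 := rfl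

omit [DecidableEq W] in
lemma bc_cp (e : W → H) (m : ℕ) (T : Fin m → J → (H →L[ℂ] H)) :
    (Matrix.of (fun p q : Fin m × (J × W) => bc e (fun j => star (T p.1 j) * T q.1 j) p.2 q.2)).PosSemidef := by
  have h := Matrix.posSemidef_gram ℂ (fun p : Fin m × (J × W) =>
    (WithLp.toLp 2 (Pi.single p.2.1 (T p.1 p.2.1 (e p.2.2))) : PiLp 2 (fun _ : J => H)))
  have heq : (Matrix.of (fun p q : Fin m × (J × W) => bc e (fun j => star (T p.1 j) * T q.1 j) p.2 q.2)) =
      Matrix.gram ℂ (fun p : Fin m × (J × W) =>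
    (WithLp.toLp 2 (Pi.single p.2.1 (T p.1 p.2.1 (e p.2.2))) : PiLp 2 (fun _ : J => H))) := ?_
  · rw [heq]; exact h
  ext p q
  rw [Matrix.gram_apply, Matrix.of_apply, bc_apply, PiLp.inner_apply]
  simp only []
  rw [Finset.sum_eq_single p.2.1]
  · rw [Pi.single_eq_same]
    by_cases hpq : p.2.1 = q.2.1
    · rw [if_pos hpq, ← hpq, Pi.single_eq_same]
      show ⟪e p.2.2, (ContinuousLinearMap.adjoint (T p.1 p.2.1)) (T q.1 p.2.1 (e q.2.2))⟫_ℂ = _
      rw [ContinuousLinearMap.adjoint_inner_right]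
    · rw [if_neg hpq, Pi.single_eq_of_ne hpq, inner_zero_right]
  · intro j _ hj
    rw [Pi.single_eq_of_ne hj, inner_zero_left]
  · intro h; exact absurd (Finset.mem_univ _) h

omit [CompleteSpace H] in
lemma bc_contr (e : W → H) (he : Orthonormal ℂ e) (T : J → (H →L[ℂ] H)) (hT : ∀ j, ‖T j‖ ≤ 1) :
    (1 - star (bc e T) * bc e T).PosSemidef := by
  rw [Matrix.posSemidef_iff_dotProduct_mulVec]
  constructor
  · unfold Matrix.IsHermitian
    rw [← Matrix.star_eq_conjTranspose, star_sub, star_one, star_mul, star_star]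
  · intro c
    have h1 : star c ⬝ᵥ ((1 - star (bc e T) * bc e T).mulVec c) =
        ((∑ p, ‖c p‖ ^ 2 - ∑ p, ‖(bc e T).mulVec c p‖ ^ 2 : ℝ) : ℂ) := by
      rw [Matrix.sub_mulVec, Matrix.one_mulVec, dotProduct_sub, ← Matrix.mulVec_mulVec]
      have h2 : ∀ v : J × W → ℂ, star v ⬝ᵥ v = ((∑ p, ‖v p‖ ^ 2 : ℝ) : ℂ) := by
        intro v
        rw [dotProduct]
        push_cast
        refine Finset.sum_congr rfl fun p _ => ?_
        rw [Pi.star_apply, RCLike.star_def, Complex.conj_mul']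
      have h3 : star c ⬝ᵥ ((star (bc e T)).mulVec ((bc e T).mulVec c)) =
          star ((bc e T).mulVec c) ⬝ᵥ ((bc e T).mulVec c) := by
        rw [Matrix.dotProduct_mulVec, Matrix.star_mulVec]
        rfl
      rw [h3, h2, h2]
      push_cast
      ring
    rw [h1]
    rw [← Complex.ofReal_zero, Complex.real_le_real, sub_nonneg]
    let v : J → H := fun j => ∑ b, c (j, b) • e b
    have h4 : ∀ p : J × W, (bc e T).mulVec c p = ⟪e p.2, T p.1 (v p.1)⟫_ℂ := by
      intro p
      rw [Matrix.mulVec, dotProduct, Fintype.sum_prod_type, Finset.sum_eq_single p.1]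
      · show _ = ⟪e p.2, T p.1 (∑ b, c (p.1, b) • e b)⟫_ℂ
        rw [map_sum, inner_sum]
        refine Finset.sum_congr rfl fun b _ => ?_
        rw [bc_apply, if_pos rfl, map_smul, inner_smul_right, mul_comm]
      · intro j _ hj
        refine Finset.sum_eq_zero fun b _ => ?_
        rw [bc_apply, if_neg (fun h => hj h.symm), zero_mul]
      · intro h; exact absurd (Finset.mem_univ _) h
    have h5 : ∀ j, ∑ b, ‖⟪e b, T j (v j)⟫_ℂ‖ ^ 2 ≤ ∑ b, ‖c (j, b)‖ ^ 2 := by
      intro j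
      calc ∑ b, ‖⟪e b, T j (v j)⟫_ℂ‖ ^ 2 ≤ ‖T j (v j)‖ ^ 2 :=
            Orthonormal.sum_inner_products_le (T j (v j)) he
        _ ≤ ‖v j‖ ^ 2 := by
          have : ‖T j (v j)‖ ≤ ‖v j‖ := by
            calc ‖T j (v j)‖ ≤ ‖T j‖ * ‖v j‖ := ContinuousLinearMap.le_opNorm _ _
              _ ≤ 1 * ‖v j‖ := by gcongr; exact hT j
              _ = _ := one_mul _
          gcongr
        _ = ∑ b, ‖c (j, b)‖ ^ 2 := by
          have h6 := he.inner_sum (fun b => c (j, b)) (fun b => c (j, b)) Finset.univ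
          have h7 : ((‖v j‖ ^ 2 : ℝ) : ℂ) = ((∑ b, ‖c (j, b)‖ ^ 2 : ℝ) : ℂ) := by
            have h8 : ⟪v j, v j⟫_ℂ = ((‖v j‖ : ℂ)) ^ 2 := inner_self_eq_norm_sq_to_K _
            push_cast
            rw [← h8]
            show ⟪∑ b, c (j, b) • e b, ∑ b, c (j, b) • e b⟫_ℂ = _
            rw [h6]
            refine Finset.sum_congr rfl fun b _ => ?_
            rw [Complex.conj_mul']
          exact_mod_cast h7
    simp only [h4]
    rw [Fintype.sum_prod_type, Fintype.sum_prod_type]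
    exact Finset.sum_le_sum fun j _ => h5 j

end compression

end Pool.Agent.H742R2
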