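import Mathlib

set_option autoImplicit false

namespace Pool.Agent.H742R2

open scoped ComplexOrder InnerProductSpace
open ContinuousLinearMap

/-! ### arithmetic of the action of words -/

/-- the affine map coded by `p ≥ 1` -/
def act (p m : ℕ) : ℕ := 2 ^ Nat.log 2 p * m + (p - 2 ^ Nat.log 2 p)

lemma pow_log_le {p : ℕ} (hp : 1 ≤ p) : 2 ^ Nat.log 2 p ≤ p := Nat.pow_log_le_self 2 (by omega)

lemma sub_lt {p : ℕ} (_ : 1 ≤ p) : p - 2 ^ Nat.log 2 p < 2 ^ Nat.log 2 p := by
  have h1 : p < 2 ^ (Nat.log 2 p + 1) := Nat.lt_pow_succ_log_self (by norm_num) p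
  rw [pow_succ] at h1
  omega

lemma act_inj (p : ℕ) : Function.Injective (act p) := by
  intro x y h
  unfold act at h
  have h2 : 0 < 2 ^ Nat.log 2 p := by positivity
  have h3 : 2 ^ Nat.log 2 p * x = 2 ^ Nat.log 2 p * y := by omega
  exact Nat.eq_of_mul_eq_mul_left h2 h3

lemma act_one (m : ℕ) : act 1 m = m := by simp [act]

lemma act_two (m : ℕ) : act 2 m = 2 * m := by
  have : Nat.log 2 2 = 1 := by decide +kernel
  simp [act, this]

lemma act_three (m : ℕ) : act 3 m = 2 * m + 1 := by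
  have : Nat.log 2 3 = 1 := by decide +kernel
  simp [act, this]

lemma act_at_one {p : ℕ} (hp : 1 ≤ p) : act p 1 = p := by
  have := pow_log_le hp
  unfold act; omega

lemma log_act {p m : ℕ} (hp : 1 ≤ p) (hm : 1 ≤ m) : Nat.log 2 (act p m) = Nat.log 2 p + Nat.log 2 m := by
  have h1 := pow_log_le hm
  have h2 : m < 2 ^ (Nat.log 2 m + 1) := Nat.lt_pow_succ_log_self (by norm_num) m
  have h3 := sub_lt hp
  have hpos : 0 < 2 ^ Nat.log 2 p := by positivity
  rw [Nat.log_eq_iff (by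
    right
    refine ⟨by norm_num, ?_⟩
    unfold act
    have : 0 < 2 ^ Nat.log 2 p * m := by positivity
    omega)]
  unfold act
  constructor
  · rw [pow_add]
    calc 2 ^ Nat.log 2 p * 2 ^ Nat.log 2 m ≤ 2 ^ Nat.log 2 p * m := Nat.mul_le_mul_left _ h1
      _ ≤ _ := Nat.le_add_right _ _
  · have h4 : m + 1 ≤ 2 ^ (Nat.log 2 m + 1) := h2
    calc 2 ^ Nat.log 2 p * m + (p - 2 ^ Nat.log 2 p) < 2 ^ Nat.log 2 p * m + 2 ^ Nat.log 2 p := by omega
      _ = 2 ^ Nat.log 2 p * (m + 1) := by ring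
      _ ≤ 2 ^ Nat.log 2 p * 2 ^ (Nat.log 2 m + 1) := Nat.mul_le_mul_left _ h4
      _ = _ := by rw [← pow_add]; congr 1

lemma act_pos {p m : ℕ} (hm : 1 ≤ m) : 1 ≤ act p m := by
  unfold act
  have : 0 < 2 ^ Nat.log 2 p * m := by positivity
  omega

lemma le_act (p m : ℕ) : m ≤ act p m := by
  unfold act
  have : 1 ≤ 2 ^ Nat.log 2 p := Nat.one_le_two_pow
  nlinarith

lemma act_act {p q : ℕ} (hp : 1 ≤ p) (hq : 1 ≤ q) (x : ℕ) : act p (act q x) = act (act p q) x := by
  have h := log_act hp hq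
  have hdef : act (act p q) x = 2 ^ Nat.log 2 (act p q) * x + (act p q - 2 ^ Nat.log 2 (act p q)) := rfl
  rw [hdef, h]
  unfold act
  have h1 := pow_log_le hp
  have h2 := pow_log_le hq
  obtain ⟨c, hc⟩ := Nat.exists_eq_add_of_le h1
  obtain ⟨d, hd⟩ := Nat.exists_eq_add_of_le h2
  have e1 : p - 2 ^ Nat.log 2 p = c := by omega
  have e2 : q - 2 ^ Nat.log 2 q = d := by omega
  rw [e1, e2]
  have e3 : 2 ^ Nat.log 2 p * q + c - 2 ^ (Nat.log 2 p + Nat.log 2 q) = 2 ^ Nat.log 2 p * d + c := by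
    have : 2 ^ Nat.log 2 p * q = 2 ^ Nat.log 2 p * d + 2 ^ (Nat.log 2 p + Nat.log 2 q) := by
      conv_lhs => rw [hd]
      rw [pow_add]; ring
    omega
  rw [e3, pow_add]; ring

lemma comparable_aux {q r x y : ℕ} (hq : 1 ≤ q) (hr : 1 ≤ r) (h : act q y = act r x)
    (hle : Nat.log 2 q ≤ Nat.log 2 r) : ∃ m, 1 ≤ m ∧ r = act q m := by
  unfold act at h
  have h1 := pow_log_le hq
  have h2 := pow_log_le hr
  have h3 := sub_lt hq
  have h4 := sub_lt hr
  obtain ⟨c, hc⟩ := Nat.exists_eq_add_of_le h1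
  obtain ⟨d, hd⟩ := Nat.exists_eq_add_of_le h2
  have e1 : q - 2 ^ Nat.log 2 q = c := by omega
  have e2 : r - 2 ^ Nat.log 2 r = d := by omega
  rw [e1] at h h3
  rw [e2] at h h4
  obtain ⟨j, hj⟩ := Nat.exists_eq_add_of_le hle
  have e3 : 2 ^ Nat.log 2 r = 2 ^ Nat.log 2 q * 2 ^ j := by rw [hj, pow_add]
  have hmod : d % 2 ^ Nat.log 2 q = c := by
    have h5 := congrArg (fun n => n % 2 ^ Nat.log 2 q) h
    simp only [Nat.mul_add_mod] at h5
    rw [e3, mul_assoc, Nat.mul_add_mod, Nat.mod_eq_of_lt h3] at h5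
    exact h5.symm
  refine ⟨2 ^ j + d / 2 ^ Nat.log 2 q, ?_, ?_⟩
  · have : 1 ≤ 2 ^ j := Nat.one_le_two_pow
    exact Nat.le_add_right_of_le this
  · unfold act
    rw [e1, mul_add, ← e3]
    have h6 := Nat.div_add_mod d (2 ^ Nat.log 2 q)
    rw [hmod] at h6
    omega

lemma comparable {q r x y : ℕ} (hq : 1 ≤ q) (hr : 1 ≤ r) (h : act q y = act r x) :
    (∃ m, 1 ≤ m ∧ r = act q m) ∨ (∃ m, 1 ≤ m ∧ q = act r m) := by
  rcases le_total (Nat.log 2 q) (Nat.log 2 r) with h1 | h1
  · left; exact comparable_aux hq hr h h1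
  · right; exact comparable_aux hr hq h.symm h1

/-! ### operators -/

/-- the Hilbert space -/
abbrev HH : Type := lp (fun _ : ℕ => ℂ) 2

/-- its basis -/
noncomputable def bb : HilbertBasis ℕ ℂ HH := HilbertBasis.ofRepr (LinearIsometryEquiv.refl ℂ _)

lemma bb_single (n : ℕ) : bb n = lp.single 2 n (1 : ℂ) := by
  rw [← HilbertBasis.repr_symm_single]
  rfl

lemma ext_bb {S T : HH →L[ℂ] HH} (h : ∀ n, S (bb n) = T (bb n)) : S = T := by
  refine ContinuousLinearMap.ext fun v => ?_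
  have hcl : IsClosed {v : HH | S v = T v} := isClosed_eq S.continuous T.continuous
  have hsub : (Submodule.span ℂ (Set.range bb) : Set HH) ⊆ {v : HH | S v = T v} := by
    intro v hv
    refine Submodule.span_induction (p := fun v _ => S v = T v) ?_ ?_ ?_ ?_ hv
    · rintro _ ⟨n, rfl⟩; exact h n
    · simp
    · intro x y _ _ hx hy; rw [map_add, map_add, hx, hy]
    · intro c x _ hx; rw [map_smul, map_smul, hx]
  have hd := HilbertBasis.dense_span bb
  have : v ∈ (Submodule.span ℂ (Set.range bb)).topologicalClosure := by rw [hd]; trivial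
  exact closure_minimal hsub hcl this

lemma inner_bb (m n : ℕ) : ⟪bb m, bb n⟫_ℂ = if m = n then 1 else 0 := by
  have := orthonormal_iff_ite.mp bb.orthonormal m n
  exact this

lemma eq_zero_of_inner {v : HH} (h : ∀ n, ⟪bb n, v⟫_ℂ = 0) : v = 0 := by
  have : bb.repr v = 0 := by
    ext n
    rw [HilbertBasis.repr_apply_apply]
    exact h n
  exact (LinearIsometryEquiv.map_eq_zero_iff bb.repr).mp this

lemma ortho_comp (f : ℕ → ℕ) (hf : Function.Injective f) : Orthonormal ℂ (fun n => bb (f n)) :=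
  bb.orthonormal.comp f hf

/-- the isometry induced by an injection -/
noncomputable def VV (f : ℕ → ℕ) (hf : Function.Injective f) : HH →L[ℂ] HH :=
  ((ortho_comp f hf).orthogonalFamily.linearIsometry).toContinuousLinearMap

lemma VV_apply (f : ℕ → ℕ) (hf : Function.Injective f) (n : ℕ) : VV f hf (bb n) = bb (f n) := by
  rw [bb_single n]
  show (ortho_comp f hf).orthogonalFamily.linearIsometry (lp.single 2 n (1 : ℂ)) = _
  rw [OrthogonalFamily.linearIsometry_apply_single]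
  simp

lemma VV_star_mul (f : ℕ → ℕ) (hf : Function.Injective f) : star (VV f hf) * VV f hf = 1 := by
  refine ContinuousLinearMap.ext fun v => ?_
  refine ext_inner_left ℂ fun w => ?_
  show ⟪w, (ContinuousLinearMap.adjoint (VV f hf)) (VV f hf v)⟫_ℂ = ⟪w, v⟫_ℂ
  rw [ContinuousLinearMap.adjoint_inner_right]
  exact LinearIsometry.inner_map_map _ _ _

lemma VV_mul (f g : ℕ → ℕ) (hf : Function.Injective f) (hg : Function.Injective g) :
    VV f hf * VV g hg = VV (f ∘ g) (hf.comp hg) := by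
  refine ext_bb fun n => ?_
  show VV f hf (VV g hg (bb n)) = _
  rw [VV_apply, VV_apply, VV_apply]; rfl

lemma VV_star_apply (f : ℕ → ℕ) (hf : Function.Injective f) (n : ℕ) : star (VV f hf) (bb (f n)) = bb n := by
  rw [← VV_apply f hf n]
  show (star (VV f hf) * VV f hf) (bb n) = bb n
  rw [VV_star_mul]; rfl

lemma VV_star_apply_not (f : ℕ → ℕ) (hf : Function.Injective f) (m : ℕ) (hm : ∀ n, f n ≠ m) :
    star (VV f hf) (bb m) = 0 := by
  refine eq_zero_of_inner fun n => ?_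
  show ⟪bb n, (ContinuousLinearMap.adjoint (VV f hf)) (bb m)⟫_ℂ = 0
  rw [ContinuousLinearMap.adjoint_inner_right, VV_apply, inner_bb, if_neg (hm n)]

/-- the isometries of the Cuntz algebra, coded by positive integers -/
noncomputable def TT (p : ℕ) : HH →L[ℂ] HH := VV (act p) (act_inj p)

lemma TT_apply (p n : ℕ) : TT p (bb n) = bb (act p n) := VV_apply _ _ _
lemma TT_star_mul (p : ℕ) : star (TT p) * TT p = 1 := VV_star_mul _ _
lemma TT_star_apply (p n : ℕ) : star (TT p) (bb (act p n)) = bb n := VV_star_apply _ _ _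
lemma TT_star_apply_not (p m : ℕ) (h : ∀ n, act p n ≠ m) : star (TT p) (bb m) = 0 := VV_star_apply_not _ _ _ h

lemma TT_mul {p q : ℕ} (hp : 1 ≤ p) (hq : 1 ≤ q) : TT p * TT q = TT (act p q) := by
  refine ext_bb fun n => ?_
  show TT p (TT q (bb n)) = _
  rw [TT_apply, TT_apply, TT_apply, act_act hp hq]

lemma TT_one : TT 1 = 1 := by
  refine ext_bb fun n => ?_
  rw [TT_apply, act_one]; rfl

lemma norm_TT_le (p : ℕ) : ‖TT p‖ ≤ 1 := by
  have h1 := CStarRing.norm_star_mul_self (x := TT p)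
  rw [TT_star_mul] at h1
  have h2 : ‖(1 : HH →L[ℂ] HH)‖ ≤ 1 := ContinuousLinearMap.norm_id_le
  rw [h1] at h2
  nlinarith [norm_nonneg (TT p)]

lemma TT_star_mul_TT {q r : ℕ} (hq : 1 ≤ q) (hr : 1 ≤ r) :
    (∃ m, 1 ≤ m ∧ star (TT q) * TT r = TT m) ∨ (∃ m, 1 ≤ m ∧ star (TT q) * TT r = star (TT m)) ∨
      star (TT q) * TT r = 0 := by
  by_cases h : ∃ x y, act q y = act r x
  · obtain ⟨x, y, hxy⟩ := h
    rcases comparable hq hr hxy with ⟨m, hm, e⟩ | ⟨m, hm, e⟩
    · left
      refine ⟨m, hm, ?_⟩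
      rw [e, ← TT_mul hq hm, ← mul_assoc, TT_star_mul, one_mul]
    · right; left
      refine ⟨m, hm, ?_⟩
      rw [e, ← TT_mul hr hm, star_mul, mul_assoc, TT_star_mul, mul_one]
  · push Not at h
    right; right
    refine ext_bb fun n => ?_
    show star (TT q) (TT r (bb n)) = 0
    rw [TT_apply]
    exact TT_star_apply_not _ _ (fun y => h n y)

lemma TT_range_sum : TT 2 * star (TT 2) + TT 3 * star (TT 3) = 1 := by
  refine ext_bb fun n => ?_
  show TT 2 (star (TT 2) (bb n)) + TT 3 (star (TT 3) (bb n)) = bb n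
  rcases Nat.even_or_odd' n with ⟨k, rfl | rfl⟩
  · have h1 : star (TT 2) (bb (2 * k)) = bb k := by
      have := TT_star_apply 2 k
      rwa [act_two] at this
    have h2 : star (TT 3) (bb (2 * k)) = 0 := by
      apply TT_star_apply_not
      intro m; rw [act_three]; omega
    rw [h1, h2, map_zero, add_zero, TT_apply, act_two]
  · have h1 : star (TT 3) (bb (2 * k + 1)) = bb k := by
      have := TT_star_apply 3 k
      rwa [act_three] at this
    have h2 : star (TT 2) (bb (2 * k + 1)) = 0 := by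
      apply TT_star_apply_not
      intro m; rw [act_two]; omega
    rw [h1, h2, map_zero, zero_add, TT_apply, act_three]

lemma sum_Ico_two_mul {M : Type*} [AddCommMonoid M] (f : ℕ → M) (m : ℕ) (hm : 1 ≤ m) :
    ∑ n ∈ Finset.Ico 1 (2 * m), f n = f 1 + ∑ n ∈ Finset.Ico 1 m, (f (2 * n) + f (2 * n + 1)) := by
  induction m, hm using Nat.le_induction with
  | base => simp
  | succ m hm ih =>
    rw [show 2 * (m + 1) = 2 * m + 1 + 1 by ring, Finset.sum_Ico_succ_top (by omega),
      Finset.sum_Ico_succ_top (by omega), ih, Finset.sum_Ico_succ_top hm]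
    simp only [add_assoc]

/-- `∑_{1 ≤ n < 2^M} T_n T_n^* = M` -/
lemma sum_TT (M : ℕ) : ∑ n ∈ Finset.Ico 1 (2 ^ M), TT n * star (TT n) = (M : ℂ) • (1 : HH →L[ℂ] HH) := by
  induction M with
  | zero => simp
  | succ M ih =>
    rw [pow_succ', sum_Ico_two_mul _ _ Nat.one_le_two_pow]
    have h : ∀ n ∈ Finset.Ico 1 (2 ^ M), TT (2 * n) * star (TT (2 * n)) + TT (2 * n + 1) * star (TT (2 * n + 1)) =
        TT 2 * (TT n * star (TT n)) * star (TT 2) + TT 3 * (TT n * star (TT n)) * star (TT 3) := by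
      intro n hn
      rw [Finset.mem_Ico] at hn
      rw [← act_two n, ← TT_mul (by norm_num) hn.1]
      have : act 2 n + 1 = act 3 n := by rw [act_two, act_three]
      rw [this, ← TT_mul (by norm_num) hn.1, star_mul, star_mul]
      noncomm_ring
    rw [Finset.sum_congr rfl h, Finset.sum_add_distrib, ← Finset.sum_mul, ← Finset.sum_mul, ← Finset.mul_sum,
      ← Finset.mul_sum, ih, TT_one]
    rw [mul_smul_comm, mul_smul_comm, smul_mul_assoc, smul_mul_assoc, mul_one, mul_one, ← smul_add, TT_range_sum,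
      star_one, mul_one]
    push_cast
    rw [add_smul, one_smul, add_comm]

end Pool.Agent.H742R2
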