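import Pool.Agent.H742R2.Cuntz
import Pool.Agent.H742R2.Crit

set_option autoImplicit false

namespace Pool.Agent.H742R2

open scoped ComplexOrder InnerProductSpace
open ContinuousLinearMap Pool.Agent.Helper234.Nuc

/-- the spanning set of the Cuntz algebra -/
def GG : Set (HH →L[ℂ] HH) := {x | ∃ p q : ℕ, 1 ≤ p ∧ 1 ≤ q ∧ x = TT p * star (TT q)}

lemma GG_mul {x y : HH →L[ℂ] HH} (hx : x ∈ GG) (hy : y ∈ GG) : x * y ∈ Submodule.span ℂ GG := by
  obtain ⟨p, q, hp, hq, rfl⟩ := hx
  obtain ⟨r, s, hr, hs, rfl⟩ := hy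
  have e : TT p * star (TT q) * (TT r * star (TT s)) = TT p * (star (TT q) * TT r) * star (TT s) := by
    noncomm_ring
  rw [e]
  rcases TT_star_mul_TT hq hr with ⟨m, hm, h⟩ | ⟨m, hm, h⟩ | h
  · rw [h, TT_mul hp hm]
    exact Submodule.subset_span ⟨_, _, act_pos hm, hs, rfl⟩
  · rw [h, mul_assoc, ← star_mul, TT_mul hs hm]
    exact Submodule.subset_span ⟨_, _, hp, act_pos hm, rfl⟩
  · rw [h, mul_zero, zero_mul]
    exact Submodule.zero_mem _

lemma GG_star {x : HH →L[ℂ] HH} (hx : x ∈ GG) : star x ∈ GG := by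
  obtain ⟨p, q, hp, hq, rfl⟩ := hx
  exact ⟨q, p, hq, hp, by rw [star_mul, star_star]⟩

lemma one_mem_GG : (1 : HH →L[ℂ] HH) ∈ GG := ⟨1, 1, le_rfl, le_rfl, by rw [TT_one, star_one, mul_one]⟩

/-- the dense *-subalgebra of the Cuntz algebra -/
def D0 : StarSubalgebra ℂ (HH →L[ℂ] HH) where
  carrier := Submodule.span ℂ GG
  mul_mem' := by
    intro x y hx hy
    refine Submodule.span_induction₂ (p := fun x y _ _ => x * y ∈ Submodule.span ℂ GG) ?_ ?_ ?_ ?_ ?_ ?_ ?_ hx hy
    · intro x y hx hy; exact GG_mul hx hy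
    · intro y _; rw [zero_mul]; exact Submodule.zero_mem _
    · intro y _; rw [mul_zero]; exact Submodule.zero_mem _
    · intro x y z _ _ _ h1 h2; rw [add_mul]; exact Submodule.add_mem _ h1 h2
    · intro x y z _ _ _ h1 h2; rw [mul_add]; exact Submodule.add_mem _ h1 h2
    · intro c x y _ _ h; rw [smul_mul_assoc]; exact Submodule.smul_mem _ _ h
    · intro c x y _ _ h; rw [mul_smul_comm]; exact Submodule.smul_mem _ _ h
  add_mem' hx hy := Submodule.add_mem _ hx hy
  algebraMap_mem' c := by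
    rw [Algebra.algebraMap_eq_smul_one]
    exact Submodule.smul_mem _ _ (Submodule.subset_span one_mem_GG)
  star_mem' := by
    intro x hx
    refine Submodule.span_induction (p := fun x _ => star x ∈ Submodule.span ℂ GG) ?_ ?_ ?_ ?_ hx
    · intro x hx; exact Submodule.subset_span (GG_star hx)
    · rw [star_zero]; exact Submodule.zero_mem _
    · intro x y _ _ h1 h2; rw [star_add]; exact Submodule.add_mem _ h1 h2
    · intro c x _ h; rw [star_smul]; exact Submodule.smul_mem _ _ h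

/-- the Cuntz algebra `𝒪₂` on `ℓ²(ℕ)` -/
noncomputable def DS : StarSubalgebra ℂ (HH →L[ℂ] HH) := D0.topologicalClosure

instance isClosed_DS : IsClosed (DS : Set (HH →L[ℂ] HH)) := StarSubalgebra.isClosed_topologicalClosure _

lemma coe_DS : (DS : Set (HH →L[ℂ] HH)) = closure (Submodule.span ℂ GG : Set (HH →L[ℂ] HH)) := rfl

lemma TT_mem_DS {p : ℕ} (hp : 1 ≤ p) : TT p ∈ DS := by
  refine subset_closure (s := (D0 : Set (HH →L[ℂ] HH))) ?_
  exact Submodule.subset_span ⟨p, 1, hp, le_rfl, by rw [TT_one, star_one, mul_one]⟩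

/-- index set -/
abbrev WW (N : ℕ) : Type := ↥(Finset.Ico 1 (2 ^ N))

/-- the approximating map -/
noncomputable def Phi (N : ℕ) : (HH →L[ℂ] HH) →ₗ[ℂ] (HH →L[ℂ] HH) where
  toFun x := ((N : ℂ)⁻¹) • ∑ a : WW N, ∑ b : WW N, ⟪bb a, x (bb b)⟫_ℂ • (TT a * star (TT b))
  map_add' x y := by
    simp only [add_apply, inner_add_right, add_smul, Finset.sum_add_distrib, smul_add]
  map_smul' c x := by
    simp only [smul_apply, inner_smul_right, RingHom.id_apply]
    rw [smul_comm c]
    congr 1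
    simp only [Finset.smul_sum, smul_smul]

lemma Phi_apply (N : ℕ) (x : HH →L[ℂ] HH) : Phi N x =
    ((N : ℂ)⁻¹) • ∑ a : WW N, ∑ b : WW N, ⟪bb a, x (bb b)⟫_ℂ • (TT a * star (TT b)) := rfl

/-- the scalar `N^{-1/2}` -/
noncomputable def rN (N : ℕ) : ℂ := ((Real.sqrt N)⁻¹ : ℝ)

lemma rN_sq (N : ℕ) : rN N * rN N = (N : ℂ)⁻¹ := by
  unfold rN
  rw [← Complex.ofReal_mul, ← mul_inv, Real.mul_self_sqrt (by positivity)]
  push_cast; rfl

lemma star_rN (N : ℕ) : star (rN N) = rN N := by
  unfold rN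
  rw [RCLike.star_def, Complex.conj_ofReal]

lemma WW_ortho (N : ℕ) : Orthonormal ℂ (fun a : WW N => bb (a : ℕ)) :=
  bb.orthonormal.comp _ Subtype.val_injective

lemma norm_Phi_le (N : ℕ) (hN : 0 < N) (x : HH →L[ℂ] HH) : ‖Phi N x‖ ≤ ‖x‖ := by
  classical
  let K : Unit → (Unit × WW N) → (HH →L[ℂ] HH) := fun _ a => rN N • star (TT a.2)
  have hkr : ∀ y : HH →L[ℂ] HH, kr K (bc (fun a : WW N => bb (a : ℕ)) (fun _ : Unit => y)) = Phi N y := by
    intro y
    rw [kr_apply, Phi_apply]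
    simp only [Fintype.sum_prod_type, Finset.univ_unique, Finset.sum_singleton, bc_apply, if_true]
    rw [Finset.smul_sum]
    refine Finset.sum_congr rfl fun a _ => ?_
    rw [Finset.smul_sum]
    refine Finset.sum_congr rfl fun b _ => ?_
    simp only [K]
    rw [star_smul, star_star, star_rN, smul_mul_smul_comm, rN_sq, smul_comm]
  have hK1 : ‖kr K 1‖ ≤ 1 := by
    have e : kr K 1 = 1 := by
      rw [kr_apply]
      simp only [Fintype.sum_prod_type, Finset.univ_unique, Finset.sum_singleton]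
      have h1 : ∀ a b : WW N, (1 : Matrix (Unit × WW N) (Unit × WW N) ℂ) (default, a) (default, b) •
          (star (K default (default, a)) * K default (default, b)) =
          if a = b then ((N : ℂ)⁻¹) • (TT a * star (TT b)) else 0 := by
        intro a b
        rw [Matrix.one_apply]
        by_cases hab : a = b
        · subst hab
          simp only [if_true, one_smul, K]
          rw [star_smul, star_star, star_rN, smul_mul_smul_comm, rN_sq]
        · rw [if_neg hab, if_neg (by simpa using hab), zero_smul]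
      simp only [h1, Finset.sum_ite_eq, Finset.mem_univ, if_true]
      rw [← Finset.smul_sum]
      have h2 : ∑ i : WW N, TT i * star (TT i) = ∑ n ∈ Finset.Ico 1 (2 ^ N), TT n * star (TT n) :=
        Finset.sum_coe_sort (Finset.Ico 1 (2 ^ N)) (fun n => TT n * star (TT n))
      rw [h2, sum_TT, smul_smul, inv_mul_cancel₀ (by exact_mod_cast hN.ne'), one_smul]
    rw [e]
    exact ContinuousLinearMap.norm_id_le
  have hcontr : ∀ y : HH →L[ℂ] HH, ‖y‖ ≤ 1 → ‖Phi N y‖ ≤ 1 := by
    intro y hy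
    rw [← hkr y]
    exact kr_contr K hK1 _ (bc_contr _ (WW_ortho N) _ (fun _ => hy))
  by_cases hx : x = 0
  · rw [hx, map_zero, norm_zero]
  have hn : 0 < ‖x‖ := norm_pos_iff.mpr hx
  have h := hcontr (((‖x‖ : ℂ)⁻¹) • x) (by
    rw [norm_smul, norm_inv, Complex.norm_real, norm_norm, inv_mul_cancel₀ hn.ne'])
  rw [map_smul, norm_smul, norm_inv, Complex.norm_real, norm_norm] at h
  rwa [inv_mul_le_iff₀ hn, mul_one] at h

end Pool.Agent.H742R2
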