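import Mathlib

set_option autoImplicit false

namespace Pool.Agent.H742R2

universe u

/-- An irreducible representation of the C*-algebra `B` on the Hilbert space `H`: a nonzero
*-homomorphism `B → 𝓑(H)` without nontrivial closed invariant subspaces. -/
def IsIrreducibleRep {B : Type u} [NonUnitalCStarAlgebra B] {H : Type u} [NormedAddCommGroup H]
    [InnerProductSpace ℂ H] [CompleteSpace H] (π : B →⋆ₙₐ[ℂ] (H →L[ℂ] H)) : Prop :=
  π ≠ 0 ∧ ∀ K : Submodule ℂ H, IsClosed (K : Set H) → (∀ b : B, ∀ x ∈ K, π b x ∈ K) → K = ⊥ ∨ K = ⊤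

/-- A C*-algebra is of type I if the image of each of its irreducible representations contains the
compact operators. -/
def IsTypeI (B : Type u) [NonUnitalCStarAlgebra B] : Prop :=
  ∀ (H : Type u) [NormedAddCommGroup H] [InnerProductSpace ℂ H] [CompleteSpace H]
    (π : B →⋆ₙₐ[ℂ] (H →L[ℂ] H)), IsIrreducibleRep π →
    ∀ T : H →L[ℂ] H, IsCompactOperator T → ∃ b : B, π b = T

/-- `A` is locally approximable by type I C*-algebras. -/
def IsLocallyTypeI (A : Type u) [NonUnitalCStarAlgebra A] : Prop :=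
  ∀ (F : Finset A) (ε : ℝ), 0 < ε →
    ∃ (B : NonUnitalStarSubalgebra ℂ A) (_ : IsClosed (B : Set A)),
      IsTypeI B ∧ ∀ x ∈ F, ∃ b ∈ B, ‖x - b‖ < ε

/-- A unital C*-algebra is stably finite if all isometries in its matrix algebras are unitary. -/
def IsStablyFinite (A : Type u) [CStarAlgebra A] : Prop :=
  ∀ (n : ℕ) (v : Matrix (Fin n) (Fin n) A), star v * v = 1 → v * star v = 1

end Pool.Agent.H742R2
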