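import Mathlib

set_option autoImplicit false

namespace Pool.Agent.H742R2

open scoped ComplexOrder InnerProductSpace
open ContinuousLinearMap UniformSpace

universe u

section ideals

variable {C : Type u} [CStarAlgebra C]

/-- two-sided ideals -/
structure IsIdl (I : Submodule ℂ C) : Prop where
  left : ∀ a x, x ∈ I → a * x ∈ I
  right : ∀ a x, x ∈ I → x * a ∈ I

lemma exists_maximal [Nontrivial C] : ∃ M : Submodule ℂ C, IsIdl M ∧ (1 : C) ∉ M ∧
    ∀ I : Submodule ℂ C, IsIdl I → M ≤ I → (1 : C) ∉ I → I = M := by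
  obtain ⟨m, hm⟩ := zorn_le₀ {I : Submodule ℂ C | IsIdl I ∧ (1 : C) ∉ I} (by
    intro c hc hchain
    rcases c.eq_empty_or_nonempty with rfl | hne
    · refine ⟨⊥, ⟨⟨?_, ?_⟩, ?_⟩, by simp⟩
      · intro a x hx; simp only [Submodule.mem_bot] at hx ⊢; simp [hx]
      · intro a x hx; simp only [Submodule.mem_bot] at hx ⊢; simp [hx]
      · simp
    · have hdir : DirectedOn (· ≤ ·) c := hchain.directedOn
      refine ⟨sSup c, ⟨⟨?_, ?_⟩, ?_⟩, fun z hz => le_sSup hz⟩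
      · intro a x hx
        rw [Submodule.mem_sSup_of_directed hne hdir] at hx ⊢
        obtain ⟨y, hy, hxy⟩ := hx
        exact ⟨y, hy, (hc hy).1.left a x hxy⟩
      · intro a x hx
        rw [Submodule.mem_sSup_of_directed hne hdir] at hx ⊢
        obtain ⟨y, hy, hxy⟩ := hx
        exact ⟨y, hy, (hc hy).1.right a x hxy⟩
      · intro hx
        rw [Submodule.mem_sSup_of_directed hne hdir] at hx
        obtain ⟨y, hy, hxy⟩ := hx
        exact (hc hy).2 hxy)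
  refine ⟨m, hm.prop.1, hm.prop.2, fun I hI hmI h1 => ?_⟩
  exact le_antisymm (hm.le_of_ge ⟨hI, h1⟩ hmI) hmI

lemma one_le_norm_one_sub {M : Submodule ℂ C} (hM : IsIdl M) (h1 : (1 : C) ∉ M) (m : C) (hm : m ∈ M) :
    1 ≤ ‖1 - m‖ := by
  by_contra h
  push Not at h
  have hu : IsUnit m := by
    have := (Units.oneSub (1 - m) h).isUnit
    simpa using this
  obtain ⟨v, hv⟩ := hu
  apply h1
  have := hM.left (↑v⁻¹ : C) m hm
  rwa [← hv, Units.inv_mul] at this

/-- The state space of `C / M`. -/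
def St (M : Submodule ℂ C) : Set (C → ℂ) :=
  {g | (∀ x, ‖g x‖ ≤ ‖x‖) ∧ (∀ x y, g (x + y) = g x + g y) ∧ (∀ (c : ℂ) x, g (c • x) = c * g x) ∧
    g 1 = 1 ∧ ∀ x ∈ M, g x = 0}

lemma isCompact_St (M : Submodule ℂ C) : IsCompact (St M) := by
  have h1 : IsCompact (Set.pi Set.univ (fun x : C => Metric.closedBall (0 : ℂ) ‖x‖)) :=
    isCompact_univ_pi fun x => isCompact_closedBall _ _
  refine h1.of_isClosed_subset ?_ ?_
  · have e : St M = (⋂ x : C, {g : C → ℂ | ‖g x‖ ≤ ‖x‖}) ∩ ((⋂ x : C, ⋂ y : C, {g : C → ℂ | g (x + y) = g x + g y})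
      ∩ ((⋂ c : ℂ, ⋂ x : C, {g : C → ℂ | g (c • x) = c * g x}) ∩ ({g : C → ℂ | g 1 = 1} ∩
        ⋂ x ∈ M, {g : C → ℂ | g x = 0}))) := by
      ext g
      simp [St]
    rw [e]
    refine IsClosed.inter (isClosed_iInter fun x => isClosed_le (by fun_prop) (by fun_prop)) ?_
    refine IsClosed.inter (isClosed_iInter fun x => isClosed_iInter fun y =>
      isClosed_eq (by fun_prop) (by fun_prop)) ?_
    refine IsClosed.inter (isClosed_iInter fun x => isClosed_iInter fun y =>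
      isClosed_eq (by fun_prop) (by fun_prop)) ?_
    refine IsClosed.inter (isClosed_eq (by fun_prop) (by fun_prop)) ?_
    exact isClosed_iInter fun x => isClosed_iInter fun _ => isClosed_eq (by fun_prop) (by fun_prop)
  · intro g hg
    rw [Set.mem_univ_pi]
    intro x
    rw [mem_closedBall_zero_iff]
    exact hg.1 x

lemma St_nonempty [Nontrivial C] {M : Submodule ℂ C} (hM : IsIdl M) (h1 : (1 : C) ∉ M) : (St M).Nonempty := by
  let Mc : Submodule ℂ C := M.topologicalClosure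
  have hcl : IsClosed (Mc : Set C) := M.isClosed_topologicalClosure
  have hdist : ∀ m ∈ Mc, 1 ≤ ‖(1 : C) - m‖ := by
    intro m hm
    have hs : IsClosed {m : C | 1 ≤ ‖(1 : C) - m‖} := isClosed_le (by fun_prop) (by fun_prop)
    have : (Mc : Set C) ⊆ {m : C | 1 ≤ ‖(1 : C) - m‖} := by
      have := hs.closure_subset_iff.mpr (fun m (hm : m ∈ (M : Set C)) => one_le_norm_one_sub hM h1 m hm)
      simpa [Mc, Submodule.topologicalClosure_coe] using this
    exact this hm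
  let q : C ⧸ Mc := Submodule.Quotient.mk (1 : C)
  have hq : ‖q‖ = 1 := by
    apply le_antisymm
    · have := Submodule.Quotient.norm_mk_le Mc (1 : C)
      rwa [CStarRing.norm_one] at this
    · have hne : (Mc : Set C).Nonempty := ⟨0, Mc.zero_mem⟩
      have hd : ‖q‖ = Metric.infDist (1 : C) (Mc : Set C) := by
        exact QuotientAddGroup.norm_mk (1 : C)
      rw [hd]
      refine (Metric.le_infDist hne).mpr ?_
      intro y hy
      rw [dist_eq_norm]
      exact hdist y hy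
  have hq0 : q ≠ 0 := by
    intro h
    rw [h, norm_zero] at hq
    exact zero_ne_one hq
  obtain ⟨g, hg1, hg2⟩ := exists_dual_vector ℂ q (by rw [hq]; norm_num)
  refine ⟨fun x => g (Submodule.Quotient.mk x), ?_, ?_, ?_, ?_, ?_⟩
  · intro x
    calc ‖g (Submodule.Quotient.mk x)‖ ≤ ‖g‖ * ‖(Submodule.Quotient.mk x : C ⧸ Mc)‖ := g.le_opNorm _
      _ ≤ 1 * ‖x‖ := by
        rw [hg1]
        gcongr
        exact Submodule.Quotient.norm_mk_le Mc x
      _ = ‖x‖ := one_mul _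
  · intro x y
    show g (Submodule.Quotient.mk (x + y)) = _
    rw [Submodule.Quotient.mk_add, map_add]
  · intro c x
    show g (Submodule.Quotient.mk (c • x)) = _
    rw [Submodule.Quotient.mk_smul, map_smul, smul_eq_mul]
  · show g q = 1
    rw [hg2, hq]
    simp
  · intro x hx
    have : (Submodule.Quotient.mk x : C ⧸ Mc) = 0 := by
      rw [Submodule.Quotient.mk_eq_zero]
      exact M.le_topologicalClosure hx
    show g (Submodule.Quotient.mk x) = 0
    rw [this, map_zero]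

end ideals

section states

variable {C : Type u} [CStarAlgebra C]

lemma St.map_sub' {M : Submodule ℂ C} {g : C → ℂ} (hg : g ∈ St M) (x y : C) : g (x - y) = g x - g y := by
  have h1 := hg.2.1 (x - y) y
  rw [sub_add_cancel] at h1
  rw [h1]; ring

lemma St.im_eq_zero {M : Submodule ℂ C} {g : C → ℂ} (hg : g ∈ St M) (a : C) (ha : IsSelfAdjoint a) :
    (g a).im = 0 := by
  set α := (g a).re
  set β := (g a).im with hβ
  have key : ∀ t : ℝ, α ^ 2 + (β + t) ^ 2 ≤ ‖a‖ ^ 2 + t ^ 2 := by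
    intro t
    have h1 : ‖g (a + ((t : ℂ) * Complex.I) • (1 : C))‖ ^ 2 = α ^ 2 + (β + t) ^ 2 := by
      rw [hg.2.1, hg.2.2.1, hg.2.2.2.1, ← Complex.normSq_eq_norm_sq, Complex.normSq_apply]
      simp [α, β]
      ring
    have h2 : ‖a + ((t : ℂ) * Complex.I) • (1 : C)‖ ^ 2 ≤ ‖a‖ ^ 2 + t ^ 2 := by
      rw [sq, ← CStarRing.norm_star_mul_self]
      have e : star (a + ((t : ℂ) * Complex.I) • (1 : C)) * (a + ((t : ℂ) * Complex.I) • (1 : C)) =
          a * a + ((t : ℂ) ^ 2) • (1 : C) := by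
        rw [star_add, star_smul, star_one, ha.star_eq]
        simp only [star_mul', RCLike.star_def, Complex.conj_ofReal, Complex.conj_I]
        rw [add_mul, mul_add, mul_add, smul_mul_assoc, smul_mul_assoc, one_mul, one_mul, mul_smul_comm, mul_one,
          smul_smul]
        have : (↑t * -Complex.I) * (↑t * Complex.I) = (t : ℂ) ^ 2 := by
          ring_nf; rw [Complex.I_sq]; ring
        rw [this]
        module
      rw [e]
      have h3 : ‖a * a‖ ≤ ‖a‖ ^ 2 := by rw [sq]; exact norm_mul_le _ _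
      have h4 : ‖((t : ℂ) ^ 2) • (1 : C)‖ ≤ t ^ 2 := by
        rw [norm_smul]
        have : ‖(1 : C)‖ ≤ 1 := by
          rcases subsingleton_or_nontrivial C with h | h
          · rw [Subsingleton.elim (1 : C) 0, norm_zero]; exact zero_le_one
          · rw [CStarRing.norm_one]
        have h5 : ‖(t : ℂ) ^ 2‖ = t ^ 2 := by
          rw [norm_pow, Complex.norm_real, Real.norm_eq_abs, sq_abs]
        rw [h5]
        nlinarith [sq_nonneg t]
      calc _ ≤ ‖a * a‖ + ‖((t : ℂ) ^ 2) • (1 : C)‖ := norm_add_le _ _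
        _ ≤ _ := add_le_add h3 h4
    have h3 := hg.1 (a + ((t : ℂ) * Complex.I) • (1 : C))
    rw [← h1]
    calc ‖g (a + ((t : ℂ) * Complex.I) • (1 : C))‖ ^ 2 ≤ ‖a + ((t : ℂ) * Complex.I) • (1 : C)‖ ^ 2 := by
          gcongr
      _ ≤ _ := h2
  by_contra hne
  have h := key ((‖a‖ ^ 2 + 1) / (2 * β))
  have e : α ^ 2 + (β + (‖a‖ ^ 2 + 1) / (2 * β)) ^ 2 = α ^ 2 + β ^ 2 + (‖a‖ ^ 2 + 1) + ((‖a‖ ^ 2 + 1) / (2 * β)) ^ 2 := by
    field_simp
    ring
  rw [e] at h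
  nlinarith [sq_nonneg α, sq_nonneg β]

lemma St.nonneg [PartialOrder C] [StarOrderedRing C] {M : Submodule ℂ C} {g : C → ℂ} (hg : g ∈ St M) (a : C)
    (ha : 0 ≤ a) : 0 ≤ g a := by
  have him := St.im_eq_zero hg a (IsSelfAdjoint.of_nonneg ha)
  rw [Complex.nonneg_iff]
  refine ⟨?_, him.symm⟩
  by_cases h0 : a = 0
  · have : g a = 0 := by
      have := St.map_sub' hg 0 0
      rw [sub_zero, sub_self] at this
      rw [h0, this]
    rw [this]; simp
  have hn : 0 < ‖a‖ := norm_pos_iff.mpr h0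
  -- `‖ ‖a‖ - a ‖ ≤ ‖a‖`
  have h1 : ‖(‖a‖ : ℂ) • (1 : C) - a‖ ≤ ‖a‖ := by
    have h2 : a ≤ algebraMap ℝ C ‖a‖ := IsSelfAdjoint.le_algebraMap_norm_self (IsSelfAdjoint.of_nonneg ha)
    have h3 : 0 ≤ algebraMap ℝ C ‖a‖ - a := sub_nonneg.mpr h2
    have h4 : algebraMap ℝ C ‖a‖ - a ≤ algebraMap ℝ C ‖a‖ := sub_le_self _ ha
    have h5 := CStarAlgebra.norm_le_norm_of_nonneg_of_le h3 h4
    have h6 : ‖algebraMap ℝ C ‖a‖‖ ≤ ‖a‖ := by
      rw [Algebra.algebraMap_eq_smul_one, norm_smul, norm_norm]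
      have : ‖(1 : C)‖ ≤ 1 := by
        rcases subsingleton_or_nontrivial C with h | h
        · rw [Subsingleton.elim (1 : C) 0, norm_zero]; exact zero_le_one
        · rw [CStarRing.norm_one]
      nlinarith
    have e : (‖a‖ : ℂ) • (1 : C) = algebraMap ℝ C ‖a‖ := by
      rw [Algebra.algebraMap_eq_smul_one]
      simp
    rw [e]
    exact h5.trans h6
  have h7 := (hg.1 _).trans h1
  rw [St.map_sub' hg, hg.2.2.1, hg.2.2.2.1, mul_one] at h7
  have h8 := (Complex.abs_re_le_norm _).trans h7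
  rw [Complex.sub_re, Complex.ofReal_re, abs_le] at h8
  linarith [h8.2]

/-- the positive linear functional attached to a state -/
noncomputable def St.toPLM [PartialOrder C] [StarOrderedRing C] {M : Submodule ℂ C} {g : C → ℂ}
    (hg : g ∈ St M) : C →ₚ[ℂ] ℂ :=
  PositiveLinearMap.mk₀ { toFun := g, map_add' := hg.2.1, map_smul' := hg.2.2.1 } (St.nonneg hg)

lemma St.toPLM_apply [PartialOrder C] [StarOrderedRing C] {M : Submodule ℂ C} {g : C → ℂ}
    (hg : g ∈ St M) (x : C) : St.toPLM hg x = g x := rfl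

end states

section gns

variable {C : Type u} [CStarAlgebra C] [PartialOrder C] [StarOrderedRing C] (f : C →ₚ[ℂ] ℂ)

/-- the canonical map to the GNS space -/
noncomputable def gv (x : C) : f.GNS := ((f.toPreGNS x : f.PreGNS) : f.GNS)

lemma gv_inner (x y : C) : ⟪gv f x, gv f y⟫_ℂ = f (star x * y) := by
  unfold gv
  rw [UniformSpace.Completion.inner_coe]
  rfl

lemma gv_act (a x : C) : f.gnsStarAlgHom a (gv f x) = gv f (a * x) := by
  show f.gnsNonUnitalStarAlgHom a (gv f x) = gv f (a * x)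
  unfold gv
  rw [PositiveLinearMap.gnsNonUnitalStarAlgHom_apply_coe]
  rfl

lemma gv_dense : DenseRange (gv f) := by
  have h1 : DenseRange ((↑) : f.PreGNS → f.GNS) := UniformSpace.Completion.denseRange_coe
  have h2 : Function.Surjective (f.toPreGNS : C → f.PreGNS) := f.toPreGNS.surjective
  exact h1.comp (h2.denseRange) (UniformSpace.Completion.continuous_coe _)

lemma gv_sub (x y : C) : gv f (x - y) = gv f x - gv f y := by
  unfold gv
  rw [map_sub, UniformSpace.Completion.coe_sub]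

lemma gv_smul (c : ℂ) (x : C) : gv f (c • x) = c • gv f x := by
  unfold gv
  rw [map_smul, UniformSpace.Completion.coe_smul]

end gns

section irr

variable {C : Type u} [CStarAlgebra C]

theorem exists_irrep [Nontrivial C] {M : Submodule ℂ C} (hM : IsIdl M) (h1 : (1 : C) ∉ M) :
    ∃ (H : Type u) (_ : NormedAddCommGroup H) (_ : InnerProductSpace ℂ H) (_ : CompleteSpace H)
      (π : C →⋆ₐ[ℂ] (H →L[ℂ] H)), (∃ ξ : H, ξ ≠ 0) ∧ (∀ m ∈ M, π m = 0) ∧
      ∀ K : Submodule ℂ H, IsClosed (K : Set H) → (∀ b, ∀ x ∈ K, π b x ∈ K) → K = ⊥ ∨ K = ⊤ := by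
  let _ := CStarAlgebra.spectralOrder C
  have := CStarAlgebra.spectralOrderedRing C
  obtain ⟨g, hg, hext⟩ := (isCompact_St M).extremePoints_nonempty (St_nonempty hM h1)
  let f := St.toPLM hg
  have hfg : ∀ x, f x = g x := fun x => rfl
  refine ⟨f.GNS, inferInstance, inferInstance, inferInstance, f.gnsStarAlgHom, ⟨gv f 1, ?_⟩, ?_, ?_⟩
  · intro h
    have := gv_inner f 1 1
    rw [h, inner_zero_left, star_one, mul_one, hfg, hg.2.2.2.1] at this
    exact zero_ne_one this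
  · intro m hm
    refine ContinuousLinearMap.ext fun v => ?_
    have hcl : IsClosed {v : f.GNS | f.gnsStarAlgHom m v = 0} :=
      isClosed_eq (f.gnsStarAlgHom m).continuous continuous_const
    have hsub : Set.range (gv f) ⊆ {v : f.GNS | f.gnsStarAlgHom m v = 0} := by
      rintro _ ⟨x, rfl⟩
      show f.gnsStarAlgHom m (gv f x) = 0
      rw [gv_act]
      have h3 : ⟪gv f (m * x), gv f (m * x)⟫_ℂ = 0 := by
        rw [gv_inner, hfg]
        apply hg.2.2.2.2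
        exact hM.left _ _ (hM.right _ _ hm)
      exact inner_self_eq_zero.mp h3
    exact closure_minimal hsub hcl (gv_dense f v)
  · intro K hKc hKinv
    have : CompleteSpace K := hKc.completeSpace_coe
    -- decomposition of the cyclic vector
    set ξ := gv f 1 with hξ
    set ξ₁ : f.GNS := K.starProjection ξ with hξ1
    set ξ₂ : f.GNS := ξ - ξ₁ with hξ2
    have hξ₁K : ξ₁ ∈ K := by rw [hξ1]; exact Submodule.starProjection_apply_mem K ξ
    have hξ₂K : ∀ y ∈ K, ⟪y, ξ₂⟫_ℂ = 0 := by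
      intro y hy
      have := Submodule.sub_starProjection_mem_orthogonal (K := K) ξ
      exact this y hy
    have hξ₂K' : ∀ y ∈ K, ⟪ξ₂, y⟫_ℂ = 0 := by
      intro y hy
      rw [← inner_conj_symm, hξ₂K y hy, map_zero]
    have hsum : ξ = ξ₁ + ξ₂ := by rw [hξ2]; abel
    -- cross terms
    have hc1 : ∀ x : C, ⟪ξ₂, f.gnsStarAlgHom x ξ₁⟫_ℂ = 0 := fun x => hξ₂K' _ (hKinv x _ hξ₁K)
    have hc2 : ∀ x : C, ⟪ξ₁, f.gnsStarAlgHom x ξ₂⟫_ℂ = 0 := by
      intro x
      have e : f.gnsStarAlgHom x = ContinuousLinearMap.adjoint (f.gnsStarAlgHom (star x)) := by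
        rw [map_star]
        exact (ContinuousLinearMap.adjoint_adjoint _).symm
      rw [e, ContinuousLinearMap.adjoint_inner_right]
      exact hξ₂K _ (hKinv _ _ hξ₁K)
    have hgξ : ∀ x : C, g x = ⟪ξ, f.gnsStarAlgHom x ξ⟫_ℂ := by
      intro x
      rw [hξ, gv_act, gv_inner, star_one, one_mul, mul_one, hfg]
    have hsplit : ∀ x : C, g x = ⟪ξ₁, f.gnsStarAlgHom x ξ₁⟫_ℂ + ⟪ξ₂, f.gnsStarAlgHom x ξ₂⟫_ℂ := by
      intro x
      rw [hgξ x, hsum, map_add, inner_add_left, inner_add_right, inner_add_right, hc1, hc2]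
      ring
    have hπM : ∀ m ∈ M, ∀ v, f.gnsStarAlgHom m v = 0 := by
      intro m hm v
      have hcl : IsClosed {v : f.GNS | f.gnsStarAlgHom m v = 0} :=
        isClosed_eq (f.gnsStarAlgHom m).continuous continuous_const
      have hsub : Set.range (gv f) ⊆ {v : f.GNS | f.gnsStarAlgHom m v = 0} := by
        rintro _ ⟨x, rfl⟩
        show f.gnsStarAlgHom m (gv f x) = 0
        rw [gv_act]
        have h3 : ⟪gv f (m * x), gv f (m * x)⟫_ℂ = 0 := by
          rw [gv_inner, hfg]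
          apply hg.2.2.2.2
          exact hM.left _ _ (hM.right _ _ hm)
        exact inner_self_eq_zero.mp h3
      exact closure_minimal hsub hcl (gv_dense f v)
    -- vector states
    have hvec : ∀ η : f.GNS, η ≠ 0 →
        (fun x : C => ((‖η‖ ^ 2 : ℝ) : ℂ)⁻¹ * ⟪η, f.gnsStarAlgHom x η⟫_ℂ) ∈ St M := by
      intro η hη
      have hn : 0 < ‖η‖ := norm_pos_iff.mpr hη
      have hn2 : ((‖η‖ ^ 2 : ℝ) : ℂ) ≠ 0 := by
        exact_mod_cast (pow_pos hn 2).ne'
      refine ⟨fun x => ?_, fun x y => ?_, fun c x => ?_, ?_, fun m hm => ?_⟩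
      · show ‖((‖η‖ ^ 2 : ℝ) : ℂ)⁻¹ * ⟪η, f.gnsStarAlgHom x η⟫_ℂ‖ ≤ ‖x‖
        rw [norm_mul, norm_inv, Complex.norm_real, Real.norm_eq_abs, abs_of_pos (pow_pos hn 2)]
        rw [inv_mul_le_iff₀ (pow_pos hn 2)]
        calc ‖⟪η, f.gnsStarAlgHom x η⟫_ℂ‖ ≤ ‖η‖ * ‖f.gnsStarAlgHom x η‖ := norm_inner_le_norm _ _
          _ ≤ ‖η‖ * (‖f.gnsStarAlgHom x‖ * ‖η‖) := by gcongr; exact ContinuousLinearMap.le_opNorm _ _
          _ ≤ ‖η‖ * (‖x‖ * ‖η‖) := by
            gcongr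
            exact NonUnitalStarAlgHom.norm_apply_le f.gnsStarAlgHom x
          _ = ‖η‖ ^ 2 * ‖x‖ := by ring
      · show ((‖η‖ ^ 2 : ℝ) : ℂ)⁻¹ * ⟪η, f.gnsStarAlgHom (x + y) η⟫_ℂ = _
        rw [map_add, _root_.add_apply, inner_add_right, mul_add]
      · show ((‖η‖ ^ 2 : ℝ) : ℂ)⁻¹ * ⟪η, f.gnsStarAlgHom (c • x) η⟫_ℂ = _
        rw [map_smul, _root_.smul_apply, inner_smul_right]
        ring
      · show ((‖η‖ ^ 2 : ℝ) : ℂ)⁻¹ * ⟪η, f.gnsStarAlgHom 1 η⟫_ℂ = 1
        rw [map_one, _root_.one_apply_eq_self, inner_self_eq_norm_sq_to_K]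
        have : ((‖η‖ : ℂ)) ^ 2 = ((‖η‖ ^ 2 : ℝ) : ℂ) := by push_cast; rfl
        erw [this]
        exact inv_mul_cancel₀ hn2
      · show ((‖η‖ ^ 2 : ℝ) : ℂ)⁻¹ * ⟪η, f.gnsStarAlgHom m η⟫_ℂ = 0
        rw [hπM m hm, inner_zero_right, mul_zero]
    by_cases hz1 : ξ₁ = 0
    · left
      rw [Submodule.eq_bot_iff]
      intro y hy
      have hzero : ∀ v : f.GNS, ⟪y, v⟫_ℂ = 0 := by
        intro v
        have hcl : IsClosed {v : f.GNS | ⟪y, v⟫_ℂ = 0} := isClosed_eq (by fun_prop) continuous_const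
        have hsub : Set.range (gv f) ⊆ {v : f.GNS | ⟪y, v⟫_ℂ = 0} := by
          rintro _ ⟨x, rfl⟩
          show ⟪y, gv f x⟫_ℂ = 0
          have e1 : gv f x = f.gnsStarAlgHom x ξ := by rw [hξ, gv_act, mul_one]
          have e : f.gnsStarAlgHom x = ContinuousLinearMap.adjoint (f.gnsStarAlgHom (star x)) := by
            rw [map_star]
            exact (ContinuousLinearMap.adjoint_adjoint _).symm
          rw [e1, e, ContinuousLinearMap.adjoint_inner_right, hsum, hz1, zero_add]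
          exact hξ₂K _ (hKinv _ _ hy)
        exact closure_minimal hsub hcl (gv_dense f v)
      exact inner_self_eq_zero.mp (hzero y)
    by_cases hz2 : ξ₂ = 0
    · right
      rw [Submodule.eq_top_iff']
      intro v
      have hsub : Set.range (gv f) ⊆ (K : Set f.GNS) := by
        rintro _ ⟨x, rfl⟩
        have e1 : gv f x = f.gnsStarAlgHom x ξ := by rw [hξ, gv_act, mul_one]
        rw [e1, hsum, hz2, add_zero]
        exact hKinv _ _ hξ₁K
      exact closure_minimal hsub hKc (gv_dense f v)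
    exfalso
    have hn1 : 0 < ‖ξ₁‖ := norm_pos_iff.mpr hz1
    have hn2 : 0 < ‖ξ₂‖ := norm_pos_iff.mpr hz2
    have hc1' : ((‖ξ₁‖ ^ 2 : ℝ) : ℂ) ≠ 0 := by exact_mod_cast (pow_pos hn1 2).ne'
    have hc2' : ((‖ξ₂‖ ^ 2 : ℝ) : ℂ) ≠ 0 := by exact_mod_cast (pow_pos hn2 2).ne'
    have hsum1 : ‖ξ₁‖ ^ 2 + ‖ξ₂‖ ^ 2 = 1 := by
      have := hsplit 1
      rw [hg.2.2.2.1, map_one, _root_.one_apply_eq_self, _root_.one_apply_eq_self,
        inner_self_eq_norm_sq_to_K, inner_self_eq_norm_sq_to_K] at this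
      have h2 : ((‖ξ₁‖ ^ 2 + ‖ξ₂‖ ^ 2 : ℝ) : ℂ) = 1 := by
        rw [this]; push_cast; rfl
      exact_mod_cast h2
    have hopen : g ∈ openSegment ℝ (fun x : C => ((‖ξ₁‖ ^ 2 : ℝ) : ℂ)⁻¹ * ⟪ξ₁, f.gnsStarAlgHom x ξ₁⟫_ℂ)
        (fun x : C => ((‖ξ₂‖ ^ 2 : ℝ) : ℂ)⁻¹ * ⟪ξ₂, f.gnsStarAlgHom x ξ₂⟫_ℂ) := by
      refine ⟨‖ξ₁‖ ^ 2, ‖ξ₂‖ ^ 2, pow_pos hn1 2, pow_pos hn2 2, hsum1, ?_⟩
      funext x
      rw [hsplit x]
      simp only [Pi.add_apply, Pi.smul_apply, Complex.real_smul]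
      rw [mul_inv_cancel_left₀ hc1', mul_inv_cancel_left₀ hc2']
    have heq := hext (hvec ξ₁ hz1) (hvec ξ₂ hz2) hopen
    have heq' : ∀ x, ⟪ξ₁, f.gnsStarAlgHom x ξ₁⟫_ℂ = ((‖ξ₁‖ ^ 2 : ℝ) : ℂ) * g x := by
      intro x
      have := congrFun heq x
      rw [← this, mul_inv_cancel_left₀ hc1']
    -- `ξ₁ = t ξ`
    have hprop : ξ₁ - (((‖ξ₁‖ ^ 2 : ℝ) : ℂ)) • ξ = 0 := by
      have hzero : ∀ v : f.GNS, ⟪ξ₁ - (((‖ξ₁‖ ^ 2 : ℝ) : ℂ)) • ξ, v⟫_ℂ = 0 := by
        intro v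
        have hcl : IsClosed {v : f.GNS | ⟪ξ₁ - (((‖ξ₁‖ ^ 2 : ℝ) : ℂ)) • ξ, v⟫_ℂ = 0} :=
          isClosed_eq (by fun_prop) continuous_const
        have hsub : Set.range (gv f) ⊆ {v : f.GNS | ⟪ξ₁ - (((‖ξ₁‖ ^ 2 : ℝ) : ℂ)) • ξ, v⟫_ℂ = 0} := by
          rintro _ ⟨x, rfl⟩
          show ⟪ξ₁ - (((‖ξ₁‖ ^ 2 : ℝ) : ℂ)) • ξ, gv f x⟫_ℂ = 0
          have e1 : gv f x = f.gnsStarAlgHom x ξ := by rw [hξ, gv_act, mul_one]
          rw [e1, inner_sub_left, inner_smul_left, Complex.conj_ofReal, ← hgξ x, ← heq' x]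
          conv_lhs => enter [1]; rw [hsum, map_add, inner_add_right, hc2 x, add_zero]
          exact sub_self _
        exact closure_minimal hsub hcl (gv_dense f v)
      exact inner_self_eq_zero.mp (hzero _)
    have hξK : ξ ∈ K := by
      have e : ξ = (((‖ξ₁‖ ^ 2 : ℝ) : ℂ))⁻¹ • ξ₁ := by
        rw [sub_eq_zero] at hprop
        have h6 : (((‖ξ₁‖ ^ 2 : ℝ) : ℂ))⁻¹ • ξ₁ = (((‖ξ₁‖ ^ 2 : ℝ) : ℂ))⁻¹ • ((((‖ξ₁‖ ^ 2 : ℝ) : ℂ)) • ξ) :=
          congrArg (fun v => (((‖ξ₁‖ ^ 2 : ℝ) : ℂ))⁻¹ • v) hprop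
        rw [smul_smul, inv_mul_cancel₀ hc1', one_smul] at h6
        exact h6.symm
      rw [e]
      exact K.smul_mem _ hξ₁K
    apply hz2
    have h5 : ξ₂ ∈ K := by rw [hξ2]; exact K.sub_mem hξK hξ₁K
    exact inner_self_eq_zero.mp (hξ₂K _ h5)

end irr

end Pool.Agent.H742R2
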