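import Pool.Agent.H626R2.Loc.ODefs
import Pool.Agent.H771R2.LocS1
import Pool.Agent.H13R2.LocS2

/-!
# O8: the coefficients of `ren s σ` for simple `σ`
-/

set_option autoImplicit false

namespace Pool.Agent.H626R2.Loc

open MvPolynomial

section occ

variable {K : Type} [Field K] {n : ℕ}

/-- O7d (uses S1, S2). -/
theorem coefFin_simpleS {L s d k : ℕ} (hL : 1 ≤ L) : CoefFin (SimpleS n K L s d) k ((d + 1) ^ k) := by
  classical
  have key : ∀ F : Fin ((d + 1) ^ k) → MvPolynomial (Fin n) K,
      (Finset.univ.image F).card ≤ (d + 1) ^ k := fun F =>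
    (Finset.card_image_le).trans (by rw [Finset.card_univ, Fintype.card_fin])
  intro r hr t ht σ hσ
  rcases hσ with h | h
  · obtain ⟨F, hF, hc⟩ := coeff_ren_sumS hr t ht h
    refine ⟨Finset.univ.image F, key F, ?_, ?_⟩
    · intro g hg
      obtain ⟨i, _, rfl⟩ := Finset.mem_image.mp hg
      exact Or.inl (hF i)
    · intro m
      rw [Finset.coe_image, Finset.coe_univ, Set.image_univ]
      exact hc m
  · obtain ⟨F, hF, hc⟩ := coeff_ren_prodS hr t ht h hL
    refine ⟨Finset.univ.image F, key F, ?_, ?_⟩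
    · intro g hg
      obtain ⟨i, _, rfl⟩ := Finset.mem_image.mp hg
      exact Or.inr (hF i)
    · intro m
      rw [Finset.coe_image, Finset.coe_univ, Set.image_univ]
      exact hc m

end occ

end Pool.Agent.H626R2.Loc
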