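import Pool.Agent.H742R2.StFin

set_option autoImplicit false

namespace Pool.Agent.H742R2

open scoped ComplexOrder InnerProductSpace unitInterval
open ContinuousLinearMap Pool.Agent.Helper234.Nuc

/-! ### nuclearity -/

/-- the constants -/
noncomputable def cst {m N : ℕ} (j : Fin (m + 1)) (a : WW N) : DT :=
  if j = 0 then (if (a : ℕ) = 1 then 1 else 0)
  else rN N • star (mkD (TT a) (TT_mem_DS (Finset.mem_Ico.mp a.2).1))

/-- square roots of the Bernstein polynomials times constants -/
noncomputable def kfun {m N : ℕ} (j : Fin (m + 1)) (a : WW N) : C(I, DT) where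
  toFun t := ((Real.sqrt (bernstein m j t) : ℝ) : ℂ) • cst j a
  continuous_toFun := by
    have h : Continuous (fun t : I => ((Real.sqrt (bernstein m j t) : ℝ) : ℂ)) :=
      Complex.continuous_ofReal.comp (Real.continuous_sqrt.comp (bernstein m j).continuous)
    exact h.smul continuous_const

lemma kfun_mem {m N : ℕ} (j : Fin (m + 1)) (a : WW N) : kfun j a ∈ AS := by
  rw [mem_AS]
  show ∃ c : ℂ, algebraMap ℂ DT c = ((Real.sqrt (bernstein m j 0) : ℝ) : ℂ) • cst j a
  by_cases hj : j = 0
  · unfold cst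
    rw [if_pos hj]
    by_cases ha : (a : ℕ) = 1
    · rw [if_pos ha]
      exact ⟨_, Algebra.algebraMap_eq_smul_one _⟩
    · rw [if_neg ha]
      exact ⟨0, by rw [map_zero, smul_zero]⟩
  · have h0 : bernstein m j 0 = 0 := by
      rw [bernstein_apply]
      have : (j : ℕ) ≠ 0 := fun h => hj (Fin.ext h)
      simp [this]
    rw [h0, Real.sqrt_zero]
    exact ⟨0, by rw [map_zero, Complex.ofReal_zero, zero_smul]⟩

/-- the Kraus elements -/
noncomputable def kap {m N : ℕ} (j : Fin (m + 1)) (a : WW N) : AT := mkA (kfun j a) (kfun_mem j a)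

lemma evT_kap {m N : ℕ} (j : Fin (m + 1)) (a b : WW N) (t : I) :
    evT t (star (kap j a) * kap j b) = ((bernstein m j t : ℝ) : ℂ) • incD (star (cst j a) * cst j b) := by
  have h1 : ∀ a : WW N, evT t (kap j a) = ((Real.sqrt (bernstein m j t) : ℝ) : ℂ) • incD (cst j a) := by
    intro a
    rw [evT_apply]
    show incD (((Real.sqrt (bernstein m j t) : ℝ) : ℂ) • cst j a) = _
    rw [map_smul]
  rw [map_mul, map_star, h1, h1, star_smul, smul_mul_smul_comm, map_mul, map_star]
  congr 1
  rw [RCLike.star_def, Complex.conj_ofReal, ← Complex.ofReal_mul, Real.mul_self_sqrt bernstein_nonneg]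

/-- the Kraus family -/
noncomputable def Kf (m N : ℕ) (q : Fin (m + 1)) (u : Fin (m + 1) × WW N) : AT :=
  if u.1 = q then kap u.1 u.2 else 0

lemma kr_Kf {m N : ℕ} (M : Matrix (Fin (m + 1) × WW N) (Fin (m + 1) × WW N) ℂ) :
    kr (Kf m N) M = ∑ j, ∑ a, ∑ b, M (j, a) (j, b) • (star (kap j a) * kap j b) := by
  rw [kr_apply]
  refine Finset.sum_congr rfl fun j _ => ?_
  rw [Fintype.sum_prod_type, Finset.sum_eq_single j]
  · refine Finset.sum_congr rfl fun a _ => ?_
    rw [Fintype.sum_prod_type, Finset.sum_eq_single j]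
    · refine Finset.sum_congr rfl fun b _ => ?_
      simp [Kf]
    · intro j' _ hj'
      refine Finset.sum_eq_zero fun b _ => ?_
      simp [Kf, hj']
    · intro h; exact absurd (Finset.mem_univ _) h
  · intro j' _ hj'
    refine Finset.sum_eq_zero fun a _ => Finset.sum_eq_zero fun v _ => ?_
    simp [Kf, hj']
  · intro h; exact absurd (Finset.mem_univ _) h

lemma incD_cst {m N : ℕ} {j : Fin (m + 1)} (hj : j ≠ 0) (a b : WW N) :
    incD (star (cst j a) * cst j b) = ((N : ℂ)⁻¹) • (TT a * star (TT b)) := by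
  unfold cst
  rw [if_neg hj, if_neg hj, star_smul, star_star, star_rN, smul_mul_smul_comm, rN_sq, map_smul, map_mul, map_star]
  rfl

lemma incD_cst_zero {m N : ℕ} (a b : WW N) :
    incD (star (cst (0 : Fin (m + 1)) a) * cst (0 : Fin (m + 1)) b) =
      if (a : ℕ) = 1 ∧ (b : ℕ) = 1 then 1 else 0 := by
  unfold cst
  rw [if_pos rfl, if_pos rfl]
  by_cases ha : (a : ℕ) = 1
  · by_cases hb : (b : ℕ) = 1
    · rw [if_pos ha, if_pos hb, if_pos ⟨ha, hb⟩, star_one, one_mul, map_one]
    · rw [if_neg hb, mul_zero, map_zero, if_neg (fun h => hb h.2)]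
  · rw [if_neg ha, star_zero, zero_mul, map_zero, if_neg (fun h => ha h.1)]

/-- index one -/
def w1 (N : ℕ) (hN : 0 < N) : WW N := ⟨1, by
  rw [Finset.mem_Ico]
  exact ⟨le_rfl, Nat.one_lt_two_pow hN.ne'⟩⟩

/-- evaluation of the approximant -/
lemma evT_kr {m N : ℕ} (hN : 0 < N) (T : Fin (m + 1) → (HH →L[ℂ] HH)) (c : ℂ) (hT : T 0 = c • 1) (t : I) :
    evT t (kr (Kf m N) (bc (fun a : WW N => bb (a : ℕ)) T)) =
      ∑ j : Fin (m + 1), ((bernstein m j t : ℝ) : ℂ) • (if j = 0 then T 0 else Phi N (T j)) := by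
  rw [kr_Kf, map_sum]
  refine Finset.sum_congr rfl fun j _ => ?_
  rw [map_sum]
  simp only [map_sum, map_smul]
  simp only [evT_kap, bc_apply, if_true]
  by_cases hj : j = 0
  · subst hj
    rw [if_pos rfl]
    simp only [incD_cst_zero]
    rw [Finset.sum_eq_single (w1 N hN)]
    · rw [Finset.sum_eq_single (w1 N hN)]
      · have h1 : ((w1 N hN : WW N) : ℕ) = 1 := rfl
        rw [h1, if_pos ⟨rfl, rfl⟩, hT, smul_smul, smul_smul]
        congr 1
        show ⟪bb 1, c • bb 1⟫_ℂ * _ = _
        rw [inner_smul_right, inner_bb, if_pos rfl, mul_one, mul_comm]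
      · intro b _ hb
        rw [if_neg, smul_zero, smul_zero]
        rintro ⟨_, h⟩
        exact hb (Subtype.ext h)
      · intro h; exact absurd (Finset.mem_univ _) h
    · intro a _ ha
      refine Finset.sum_eq_zero fun b _ => ?_
      rw [if_neg, smul_zero, smul_zero]
      rintro ⟨h, _⟩
      exact ha (Subtype.ext h)
    · intro h; exact absurd (Finset.mem_univ _) h
  · rw [if_neg hj, Phi_apply]
    simp only [incD_cst hj]
    rw [Finset.smul_sum, Finset.smul_sum]
    refine Finset.sum_congr rfl fun a _ => ?_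
    rw [Finset.smul_sum, Finset.smul_sum]
    refine Finset.sum_congr rfl fun b _ => ?_
    rw [smul_smul, smul_smul, smul_smul, smul_smul]
    congr 1
    ring

lemma kr_one {m N : ℕ} (hN : 0 < N) : kr (Kf m N) 1 = 1 := by
  have h1 : (1 : Matrix (Fin (m + 1) × WW N) (Fin (m + 1) × WW N) ℂ) =
      bc (fun a : WW N => bb (a : ℕ)) (fun _ => 1) := by
    ext p q
    rw [bc_apply, Matrix.one_apply]
    by_cases h : p = q
    · rw [if_pos h, h, if_pos rfl]
      show 1 = ⟪bb q.2, bb q.2⟫_ℂ
      rw [inner_bb, if_pos rfl]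
    · rw [if_neg h]
      by_cases h2 : p.1 = q.1
      · rw [if_pos h2]
        show 0 = ⟪bb p.2, bb q.2⟫_ℂ
        rw [inner_bb, if_neg]
        intro h3
        exact h (Prod.ext h2 (Subtype.ext h3))
      · rw [if_neg h2]
  apply AT_ext
  intro t
  rw [h1, evT_kr hN _ 1 (one_smul _ _).symm, map_one (evT t)]
  have h2 : ∀ j : Fin (m + 1), (if j = 0 then (1 : HH →L[ℂ] HH) else Phi N 1) = 1 := by
    intro j
    by_cases hj : j = 0
    · rw [if_pos hj]
    · rw [if_neg hj, Phi_apply]
      have h3 : ∀ a b : WW N, ⟪bb a, (1 : HH →L[ℂ] HH) (bb b)⟫_ℂ • (TT a * star (TT b)) =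
          if a = b then TT a * star (TT b) else 0 := by
        intro a b
        show ⟪bb a, bb b⟫_ℂ • _ = _
        rw [inner_bb]
        by_cases hab : a = b
        · rw [if_pos hab, if_pos (by rw [hab]), one_smul]
        · rw [if_neg hab, if_neg (fun h => hab (Subtype.ext h)), zero_smul]
      simp only [h3, Finset.sum_ite_eq, Finset.mem_univ, if_true]
      have h4 : ∑ i : WW N, TT i * star (TT i) = ∑ n ∈ Finset.Ico 1 (2 ^ N), TT n * star (TT n) :=
        Finset.sum_coe_sort (Finset.Ico 1 (2 ^ N)) (fun n => TT n * star (TT n))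
      rw [h4, sum_TT, smul_smul, inv_mul_cancel₀ (by exact_mod_cast hN.ne'), one_smul]
  simp only [h2]
  rw [← Finset.sum_smul, ← Complex.ofReal_sum, bernstein.probability, Complex.ofReal_one, one_smul]

/-- the compression map -/
noncomputable def phiA (m N : ℕ) : AT →ₗ[ℂ] Matrix (Fin (m + 1) × WW N) (Fin (m + 1) × WW N) ℂ where
  toFun f := bc (fun a : WW N => bb (a : ℕ)) (fun j => evT (bernstein.z j) f)
  map_add' f g := by
    ext p q
    rw [Matrix.add_apply, bc_apply, bc_apply, bc_apply]
    by_cases h : p.1 = q.1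
    · rw [if_pos h, if_pos h, if_pos h, map_add, _root_.add_apply, inner_add_right]
    · rw [if_neg h, if_neg h, if_neg h, add_zero]
  map_smul' c f := by
    ext p q
    rw [Matrix.smul_apply, bc_apply, bc_apply]
    by_cases h : p.1 = q.1
    · rw [if_pos h, if_pos h, map_smul, _root_.smul_apply, inner_smul_right]; rfl
    · rw [if_neg h, if_neg h, smul_zero]

lemma phiA_apply (m N : ℕ) (f : AT) :
    phiA m N f = bc (fun a : WW N => bb (a : ℕ)) (fun j => evT (bernstein.z j) f) := rfl

theorem nuclear_AT : IsNuclear AT := by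
  refine isNuclear_of_approx (fun F ε hε => ?_)
  -- choice of the degree
  have hm : ∃ m : ℕ, ∀ f ∈ F, ‖bernsteinApproximation m (incA f) - incA f‖ < ε / 3 := by
    have h1 : ∀ f ∈ F, ∀ᶠ m : ℕ in Filter.atTop, ‖bernsteinApproximation m (incA f) - incA f‖ < ε / 3 := by
      intro f _
      have h2 := bernsteinApproximation_uniform (incA f)
      have h3 := Metric.tendsto_nhds.mp h2 (ε / 3) (by positivity)
      filter_upwards [h3] with m hm
      rwa [dist_eq_norm] at hm
    exact ((Filter.eventually_all_finset F).mpr h1).exists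
  obtain ⟨m, hm⟩ := hm
  have hN : ∃ N : ℕ, 0 < N ∧ ∀ f ∈ F, ∀ j : Fin (m + 1),
      ‖Phi N (evT (bernstein.z j) f) - evT (bernstein.z j) f‖ < ε / 3 := by
    have h1 : ∀ f ∈ F, ∀ᶠ N : ℕ in Filter.atTop, ∀ j : Fin (m + 1),
        ‖Phi N (evT (bernstein.z j) f) - evT (bernstein.z j) f‖ < ε / 3 := by
      intro f _
      rw [Filter.eventually_all]
      intro j
      have h2 := Phi_tendsto (incD_mem (evD (bernstein.z j) f))
      have h3 := Metric.tendsto_nhds.mp h2 (ε / 3) (by positivity)
      filter_upwards [h3] with N hN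
      rwa [dist_eq_norm] at hN
    have h2 := (Filter.eventually_gt_atTop 0).and ((Filter.eventually_all_finset F).mpr h1)
    exact h2.exists
  obtain ⟨N, hN0, hN⟩ := hN
  refine ⟨Fin (m + 1) × WW N, Fin (m + 1), inferInstance, inferInstance, inferInstance, phiA m N, Kf m N, ?_, ?_, ?_, ?_⟩
  · intro k x
    have h := bc_cp (fun a : WW N => bb (a : ℕ)) k (fun i (j : Fin (m + 1)) => evT (bernstein.z j) (x i))
    have e : (Matrix.of (fun p q : Fin k × (Fin (m + 1) × WW N) => phiA m N (star (x p.1) * x q.1) p.2 q.2)) =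
        (Matrix.of (fun p q : Fin k × (Fin (m + 1) × WW N) => bc (fun a : WW N => bb (a : ℕ))
          (fun j => star (evT (bernstein.z j) (x p.1)) * evT (bernstein.z j) (x q.1)) p.2 q.2)) := by
      ext p q
      rw [Matrix.of_apply, Matrix.of_apply, phiA_apply]
      simp only [map_mul, map_star]
    have h2 := (congrArg Matrix.PosSemidef e).mpr h
    exact h2
  · intro f hf
    have h := bc_contr (fun a : WW N => bb (a : ℕ)) (WW_ortho N) (fun j : Fin (m + 1) => evT (bernstein.z j) f)
      (fun j => (norm_evT_le f _).trans hf)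
    exact h
  · rw [kr_one hN0]
    have : ‖(1 : AT)‖ ≤ 1 := by
      rw [norm_AT_le zero_le_one]
      intro t
      rw [map_one]
      exact ContinuousLinearMap.norm_id_le
    exact this
  · intro f hf
    have hle : ‖kr (Kf m N) (phiA m N f) - f‖ ≤ 2 * (ε / 3) := by
      rw [norm_AT_le (by positivity)]
      intro t
      obtain ⟨c, hc⟩ := (mem_AS _).mp (incA_mem f)
      have hz0 : evT (bernstein.z (0 : Fin (m + 1))) f = c • 1 := by
        rw [bernstein.z_zero, evT_apply, ← hc, Algebra.algebraMap_eq_smul_one, map_smul, map_one]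
      rw [map_sub, phiA_apply, evT_kr hN0 _ c hz0]
      have hB : evT t f = ∑ j : Fin (m + 1), ((bernstein m j t : ℝ) : ℂ) • evT (bernstein.z j) f -
          incD ((bernsteinApproximation m (incA f) - incA f) t) := by
        rw [ContinuousMap.sub_apply, map_sub, bernsteinApproximation.apply, map_sum]
        have h5 : ∀ j : Fin (m + 1), incD (bernstein m j t • incA f (bernstein.z j)) =
            ((bernstein m j t : ℝ) : ℂ) • evT (bernstein.z j) f := by
          intro j
          exact map_smul incD ((bernstein m j t : ℝ) : ℂ) (incA f (bernstein.z j))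
        simp only [h5]
        rw [← evT_apply]
        abel
      rw [hB]
      have h6 : ∑ j : Fin (m + 1), ((bernstein m j t : ℝ) : ℂ) • (if j = 0 then evT (bernstein.z (0 : Fin (m + 1))) f
          else Phi N (evT (bernstein.z j) f)) - (∑ j : Fin (m + 1), ((bernstein m j t : ℝ) : ℂ) • evT (bernstein.z j) f -
          incD ((bernsteinApproximation m (incA f) - incA f) t)) =
          ∑ j : Fin (m + 1), ((bernstein m j t : ℝ) : ℂ) • ((if j = 0 then evT (bernstein.z (0 : Fin (m + 1))) f
          else Phi N (evT (bernstein.z j) f)) - evT (bernstein.z j) f) +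
          incD ((bernsteinApproximation m (incA f) - incA f) t) := by
        simp only [smul_sub, Finset.sum_sub_distrib]
        abel
      rw [h6]
      have h7 : ∀ j : Fin (m + 1), ‖(if j = 0 then evT (bernstein.z (0 : Fin (m + 1))) f
          else Phi N (evT (bernstein.z j) f)) - evT (bernstein.z j) f‖ ≤ ε / 3 := by
        intro j
        by_cases hj : j = 0
        · rw [if_pos hj, hj, sub_self, norm_zero]; positivity
        · rw [if_neg hj]; exact (hN f hf j).le
      have h8 : ‖∑ j : Fin (m + 1), ((bernstein m j t : ℝ) : ℂ) • ((if j = 0 then evT (bernstein.z (0 : Fin (m + 1))) f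
          else Phi N (evT (bernstein.z j) f)) - evT (bernstein.z j) f)‖ ≤ ε / 3 := by
        refine (norm_sum_le _ _).trans ?_
        calc _ ≤ ∑ j : Fin (m + 1), bernstein m j t * (ε / 3) := by
              refine Finset.sum_le_sum fun j _ => ?_
              rw [norm_smul, Complex.norm_real, Real.norm_eq_abs, abs_of_nonneg bernstein_nonneg]
              exact mul_le_mul_of_nonneg_left (h7 j) bernstein_nonneg
          _ = ε / 3 := by rw [← Finset.sum_mul, bernstein.probability, one_mul]
      have h9 : ‖incD ((bernsteinApproximation m (incA f) - incA f) t)‖ ≤ ε / 3 := by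
        rw [norm_incD]
        exact (ContinuousMap.norm_coe_le_norm _ t).trans (hm f hf).le
      calc _ ≤ _ := norm_add_le _ _
        _ ≤ ε / 3 + ε / 3 := add_le_add h8 h9
        _ = _ := by ring
    refine lt_of_le_of_lt hle ?_
    linarith

/-! ### the obstruction -/

/-- the generators of the cone -/
noncomputable def gen (p : ℕ) (hp : 1 ≤ p) : AT :=
  mkA ⟨fun t : I => ((t : ℝ) : ℂ) • mkD (TT p) (TT_mem_DS hp), by
    have h : Continuous (fun t : I => ((t : ℝ) : ℂ)) := Complex.continuous_ofReal.comp continuous_subtype_val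
    exact h.smul continuous_const⟩ (by
    rw [mem_AS]
    refine ⟨0, ?_⟩
    rw [map_zero]
    show (0 : DT) = (((0 : I) : ℝ) : ℂ) • mkD (TT p) (TT_mem_DS hp)
    rw [Set.Icc.coe_zero, Complex.ofReal_zero, zero_smul])

lemma evD_gen (p : ℕ) (hp : 1 ≤ p) : evD 1 (gen p hp) = mkD (TT p) (TT_mem_DS hp) := by
  rw [evD_apply]
  show (((1 : I) : ℝ) : ℂ) • mkD (TT p) (TT_mem_DS hp) = _
  rw [Set.Icc.coe_one, Complex.ofReal_one, one_smul]

lemma TT_two_three : star (TT 2) * TT 3 = 0 := by
  refine ext_bb fun n => ?_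
  show star (TT 2) (TT 3 (bb n)) = 0
  rw [TT_apply]
  apply TT_star_apply_not
  intro m
  rw [act_two, act_three]; omega

theorem not_locallyTypeI_AT : ¬ IsLocallyTypeI AT := by
  refine not_locallyTypeI (evD 1) (gen 2 (by norm_num)) (gen 3 (by norm_num)) ?_ ?_ ?_ inferInstance
  · rw [evD_gen]
    apply incD_inj
    rw [map_mul, map_star, map_one]
    exact TT_star_mul 2
  · rw [evD_gen]
    apply incD_inj
    rw [map_mul, map_star, map_one]
    exact TT_star_mul 3
  · rw [evD_gen, evD_gen]
    apply incD_inj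
    rw [map_mul, map_star, map_zero]
    exact TT_two_three

end Pool.Agent.H742R2
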