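import Pool.Agent.H742R2.RZ_S5
import Pool.Agent.H306R2.RZ.Stubs

/-!
# RZ, task S5 from F2 and Z1
-/

set_option autoImplicit false

namespace Pool.Agent.H742R2

open Finset Filter Topology MeasureTheory Pool.Agent.H306R2.RZ

/-- shift of the contour -/
theorem S5 (F : ℝ → ℝ) (hF : TF F) (X : ℝ) (hX : 0 < X) (q : ℕ) (hq0 : q ≠ 0) (L : ℝ) (hL : 0 < L)
    (s : ℝ) (w1 w2 Q1 Q2 : ℝ → ℝ) (h1 : Wt s w1) (h2 : Wt s w2) (h3 : Wt s Q1) (h4 : Wt s Q2)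
    (σ0 σ1 : ℝ) (hσ1 : 0 < σ1) (hσ : σ1 ≤ σ0) (hσ0 : σ0 ≤ 1) :
    T2m F X q L w1 w2 Q1 Q2 σ0 = T2m F X q L w1 w2 Q1 Q2 σ1 :=
  S5_of F (Stubs.F2 F hF).1 (Stubs.F2 F hF).2.1 Stubs.Z1.1 Stubs.Z1.2.1 X hX q L hL s w1 w2 Q1 Q2
    h1 h2 h3 h4 σ0 σ1 hσ1 hσ hσ0

end Pool.Agent.H742R2
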