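import Pool.Agent.H742R2.Cone

set_option autoImplicit false

namespace Pool.Agent.H742R2

open scoped ComplexOrder InnerProductSpace unitInterval
open ContinuousLinearMap Pool.Agent.Helper234.Nuc

/-- a submultiplicative norm on matrices -/
noncomputable def eN {R : Type} [NormedRing R] {n : ℕ} (x : Matrix (Fin n) (Fin n) R) : ℝ :=
  ∑ i, ∑ j, ‖x i j‖

lemma eN_mul {R : Type} [NormedRing R] {n : ℕ} (x y : Matrix (Fin n) (Fin n) R) :
    eN (x * y) ≤ eN x * eN y := by
  unfold eN
  calc ∑ i, ∑ j, ‖(x * y) i j‖ ≤ ∑ i, ∑ j, ∑ k, ‖x i k‖ * ‖y k j‖ := by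
        refine Finset.sum_le_sum fun i _ => Finset.sum_le_sum fun j _ => ?_
        rw [Matrix.mul_apply]
        exact (norm_sum_le _ _).trans (Finset.sum_le_sum fun k _ => norm_mul_le _ _)
    _ = ∑ i, ∑ k, ‖x i k‖ * ∑ j, ‖y k j‖ := by
        refine Finset.sum_congr rfl fun i _ => ?_
        rw [Finset.sum_comm]
        refine Finset.sum_congr rfl fun k _ => ?_
        rw [Finset.mul_sum]
    _ ≤ ∑ i, ∑ k, ‖x i k‖ * ∑ k', ∑ j, ‖y k' j‖ := by
        refine Finset.sum_le_sum fun i _ => Finset.sum_le_sum fun k _ => ?_
        refine mul_le_mul_of_nonneg_left ?_ (norm_nonneg _)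
        exact Finset.single_le_sum (f := fun k => ∑ j, ‖y k j‖)
          (fun k _ => Finset.sum_nonneg fun j _ => norm_nonneg _) (Finset.mem_univ k)
    _ = _ := by
        simp only [← Finset.sum_mul]

lemma eN_nonneg {R : Type} [NormedRing R] {n : ℕ} (x : Matrix (Fin n) (Fin n) R) : 0 ≤ eN x :=
  Finset.sum_nonneg fun i _ => Finset.sum_nonneg fun j _ => norm_nonneg _

lemma eN_eq_zero {R : Type} [NormedRing R] {n : ℕ} {x : Matrix (Fin n) (Fin n) R} (h : eN x = 0) : x = 0 := by
  ext i j
  unfold eN at h
  rw [Finset.sum_eq_zero_iff_of_nonneg (fun i _ => Finset.sum_nonneg fun j _ => norm_nonneg _)] at h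
  have h1 := h i (Finset.mem_univ i)
  rw [Finset.sum_eq_zero_iff_of_nonneg (fun j _ => norm_nonneg _)] at h1
  exact norm_eq_zero.mp (h1 j (Finset.mem_univ j))

instance : Nontrivial DT := by
  refine ⟨⟨mkD 1 (one_mem _), 0, fun h => ?_⟩⟩
  have h3 := congrArg incD h
  rw [incD_mkD, map_zero] at h3
  have h4 := congrArg (fun T : HH →L[ℂ] HH => T (bb 0)) h3
  exact bb.orthonormal.ne_zero 0 h4

theorem stablyFinite_AT : IsStablyFinite AT := by
  intro n v hv
  let p : I → Matrix (Fin n) (Fin n) DT := fun t => 1 - (v * star v).map (evD t)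
  have hmul : ∀ (t : I) (x y : Matrix (Fin n) (Fin n) AT), (x * y).map (evD t) = x.map (evD t) * y.map (evD t) :=
    fun t x y => Matrix.map_mul
  have hone : ∀ t : I, (1 : Matrix (Fin n) (Fin n) AT).map (evD t) = 1 := fun t =>
    Matrix.map_one _ (map_zero _) (map_one _)
  have hidem : ∀ t, p t * p t = p t := by
    intro t
    have h1 : (v * star v) * (v * star v) = v * star v := by
      rw [mul_assoc, ← mul_assoc (star v), hv, one_mul]
    have h2 := hmul t (v * star v) (v * star v)
    rw [h1] at h2
    have h3 : IsIdempotentElem ((v * star v).map (evD t)) := h2.symm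
    exact h3.one_sub
  have hcont : Continuous p := by
    refine Continuous.sub continuous_const ?_
    refine continuous_matrix fun i j => ?_
    exact (incA ((v * star v) i j)).continuous
  have hcN : Continuous (fun t => eN (p t)) := by
    unfold eN
    refine continuous_finsetSum _ fun i _ => continuous_finsetSum _ fun j _ => ?_
    exact (hcont.matrix_elem i j).norm
  have hzero : p 0 = 0 := by
    -- scalar matrices
    have h1 : ∀ i j, ∃ c : ℂ, algebraMap ℂ DT c = evD 0 (v i j) := fun i j => (mem_AS _).mp (incA_mem (v i j))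
    choose c hc using h1
    let w : Matrix (Fin n) (Fin n) ℂ := Matrix.of c
    have hw : w.map (algebraMap ℂ DT) = v.map (evD 0) := by
      ext1 i j
      exact hc i j
    have hws : (star w).map (algebraMap ℂ DT) = (star v).map (evD 0) := by
      ext1 i j
      show algebraMap ℂ DT (star (c j i)) = evD 0 (star (v j i))
      rw [map_star (evD 0), ← hc j i, algebraMap_star_comm]
    have hsv : star w * w = 1 := by
      have h2 : (star w * w).map (algebraMap ℂ DT) = (1 : Matrix (Fin n) (Fin n) ℂ).map (algebraMap ℂ DT) := by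
        rw [Matrix.map_mul, hw, hws]
        rw [Matrix.map_one _ (map_zero (algebraMap ℂ DT)) (map_one (algebraMap ℂ DT))]
        rw [← hone 0, ← hv]
        exact (hmul 0 (star v) v).symm
      have hinj : Function.Injective (algebraMap ℂ DT) := FaithfulSMul.algebraMap_injective ℂ DT
      exact Matrix.map_injective hinj h2
    have hvs : w * star w = 1 := mul_eq_one_comm.mp hsv
    have h3 : (v * star v).map (evD 0) = 1 := by
      rw [hmul 0 v (star v), ← hw, ← hws]
      rw [← Matrix.map_mul (f := algebraMap ℂ DT), hvs]
      exact Matrix.map_one _ (map_zero (algebraMap ℂ DT)) (map_one (algebraMap ℂ DT))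
    show 1 - (v * star v).map (evD 0) = 0
    rw [h3, sub_self]
  -- connectedness
  have hclopen : IsClopen {t : I | p t = 0} := by
    constructor
    · exact isClosed_eq hcont continuous_const
    · have e : {t : I | p t = 0} = {t : I | eN (p t) < 1} := by
        ext t
        constructor
        · intro h
          show eN (p t) < 1
          have h' : p t = 0 := h
          rw [h']
          simp [eN]
        · intro h
          have h' : eN (p t) < 1 := h
          have h2 : eN (p t) ≤ eN (p t) * eN (p t) := by
            conv_lhs => rw [← hidem t]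
            exact eN_mul _ _
          have h3 := eN_nonneg (p t)
          refine eN_eq_zero ?_
          by_contra h5
          have h4 : 0 < eN (p t) := lt_of_le_of_ne h3 (Ne.symm h5)
          nlinarith
      rw [e]
      exact isOpen_lt hcN continuous_const
  have huniv : {t : I | p t = 0} = Set.univ := hclopen.eq_univ ⟨0, hzero⟩
  ext i j
  apply AT_ext
  intro t
  have h1 : p t = 0 := by
    have : t ∈ {t : I | p t = 0} := by rw [huniv]; trivial
    exact this
  have h2 : (v * star v).map (evD t) = 1 := (sub_eq_zero.mp h1).symm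
  have h3 := congrFun (congrFun h2 i) j
  have h4 := congrFun (congrFun (hone t) i) j
  rw [← h4] at h3
  exact congrArg incD h3

end Pool.Agent.H742R2
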