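import Pool.Agent.H742R2.Irrep
import Pool.Agent.H742R2.Defs

set_option autoImplicit false

namespace Pool.Agent.H742R2

open scoped ComplexOrder InnerProductSpace
open ContinuousLinearMap UniformSpace

universe u

section

variable {C : Type u} [CStarAlgebra C]

lemma isCompactOperator_rankOne {H : Type u} [NormedAddCommGroup H] [InnerProductSpace ℂ H] (ξ : H) :
    IsCompactOperator ((innerSL ℂ ξ).smulRight ξ : H →L[ℂ] H) := by
  have h1 : IsCompactOperator (id : ℂ → ℂ) := isCompactOperator_id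
  have h2 := h1.comp_clm (innerSL ℂ ξ)
  exact h2.clm_comp ((ContinuousLinearMap.id ℂ ℂ).smulRight ξ)

/-- A unital type I algebra has a nonzero finite dimensional representation. -/
theorem exists_fd_rep [Nontrivial C]
    (hC : ∀ (H : Type u) [NormedAddCommGroup H] [InnerProductSpace ℂ H] [CompleteSpace H]
      (π : C →⋆ₐ[ℂ] (H →L[ℂ] H)), (∃ ξ : H, ξ ≠ 0) →
      (∀ K : Submodule ℂ H, IsClosed (K : Set H) → (∀ b, ∀ x ∈ K, π b x ∈ K) → K = ⊥ ∨ K = ⊤) →
      ∀ T : H →L[ℂ] H, IsCompactOperator T → ∃ b : C, π b = T) :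
    ∃ (H : Type u) (_ : NormedAddCommGroup H) (_ : InnerProductSpace ℂ H) (_ : CompleteSpace H)
      (π : C →⋆ₐ[ℂ] (H →L[ℂ] H)), (∃ ξ : H, ξ ≠ 0) ∧ FiniteDimensional ℂ H := by
  obtain ⟨M, hM, h1, hmax⟩ := exists_maximal (C := C)
  obtain ⟨H, i1, i2, i3, π, ⟨ξ, hξ⟩, hπM, hirr⟩ := exists_irrep hM h1
  refine ⟨H, i1, i2, i3, π, ⟨ξ, hξ⟩, ?_⟩
  -- the ideal of elements mapped to compact operators
  let J : Submodule ℂ C :=
    { carrier := {x | IsCompactOperator (π x)}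
      add_mem' := by
        intro a b ha hb
        show IsCompactOperator (π (a + b))
        rw [map_add]
        exact IsCompactOperator.add ha hb
      zero_mem' := by
        show IsCompactOperator (π 0)
        rw [map_zero]
        exact isCompactOperator_zero
      smul_mem' := by
        intro c a ha
        show IsCompactOperator (π (c • a))
        rw [map_smul]
        exact IsCompactOperator.smul ha c }
  have hJmem : ∀ x, x ∈ J ↔ IsCompactOperator (π x) := fun x => Iff.rfl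
  have hJ : IsIdl J := by
    refine ⟨fun a x hx => ?_, fun a x hx => ?_⟩
    · rw [hJmem] at hx ⊢
      rw [map_mul]
      exact hx.clm_comp (π a)
    · rw [hJmem] at hx ⊢
      rw [map_mul]
      exact hx.comp_clm (π a)
  have hMJ : M ≤ J := by
    intro m hm
    rw [hJmem, hπM m hm]
    exact isCompactOperator_zero
  have h1J : (1 : C) ∈ J := by
    by_contra h
    have hJM := hmax J hJ hMJ h
    obtain ⟨x, hx⟩ := hC H π ⟨ξ, hξ⟩ hirr _ (isCompactOperator_rankOne ξ)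
    have hxJ : x ∈ J := by
      rw [hJmem, hx]
      exact isCompactOperator_rankOne ξ
    rw [hJM] at hxJ
    have h2 := hπM x hxJ
    rw [hx] at h2
    have h3 := congrArg (fun T : H →L[ℂ] H => T ξ) h2
    simp only [smulRight_apply, innerSL_apply_apply, ContinuousLinearMap.zero_apply] at h3
    rw [smul_eq_zero, inner_self_eq_zero] at h3
    exact hξ (h3.elim id id)
  have h2 : IsCompactOperator (id : H → H) := by
    have := (hJmem 1).mp h1J
    rw [map_one] at this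
    exact this
  exact (isCompactOperator_id_iff_finiteDimensional (𝕜 := ℂ)).mp h2

/-- In a finite dimensional representation there are no two almost orthogonal almost isometries. -/
theorem not_fd {H : Type u} [NormedAddCommGroup H] [InnerProductSpace ℂ H] [FiniteDimensional ℂ H]
    (hH : ∃ ξ : H, ξ ≠ 0) [CompleteSpace H] (s₁ s₂ : H →L[ℂ] H)
    (h11 : ‖star s₁ * s₁ - 1‖ ≤ 1 / 4) (h22 : ‖star s₂ * s₂ - 1‖ ≤ 1 / 4)
    (h12 : ‖star s₁ * s₂‖ ≤ 1 / 4) : False := by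
  let L : (H × H) →ₗ[ℂ] H := (s₁ : H →ₗ[ℂ] H).coprod (s₂ : H →ₗ[ℂ] H)
  have hL : ∀ x y, L (x, y) = s₁ x + s₂ y := fun x y => by simp [L]
  have hinj : Function.Injective L := by
    rw [injective_iff_map_eq_zero]
    rintro ⟨x, y⟩ hxy
    rw [hL] at hxy
    have e1 : ∀ (s t : H →L[ℂ] H) (u v : H), ⟪s u, t v⟫_ℂ = ⟪u, (star s * t) v⟫_ℂ := by
      intro s t u v
      rw [ContinuousLinearMap.star_eq_adjoint]
      show _ = ⟪u, (ContinuousLinearMap.adjoint s) (t v)⟫_ℂ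
      rw [ContinuousLinearMap.adjoint_inner_right]
    -- lower bound for `‖s u‖²`
    have hlow : ∀ (s : H →L[ℂ] H) (u : H), ‖star s * s - 1‖ ≤ 1 / 4 → (3 / 4) * ‖u‖ ^ 2 ≤ ‖s u‖ ^ 2 := by
      intro s u hs
      have h1 : (‖s u‖ ^ 2 : ℝ) = ‖u‖ ^ 2 + RCLike.re ⟪u, (star s * s - 1) u⟫_ℂ := by
        have h2 : ⟪s u, s u⟫_ℂ = ⟪u, u⟫_ℂ + ⟪u, (star s * s - 1) u⟫_ℂ := by
          rw [e1, ← inner_add_right]
          congr 1
          show _ = u + ((star s * s) u - u)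
          abel
        have h3 := congrArg RCLike.re h2
        rw [map_add] at h3
        rw [← inner_self_eq_norm_sq (𝕜 := ℂ), ← inner_self_eq_norm_sq (𝕜 := ℂ)]
        exact h3
      have h4 : |RCLike.re ⟪u, (star s * s - 1) u⟫_ℂ| ≤ (1 / 4) * ‖u‖ ^ 2 := by
        calc |RCLike.re ⟪u, (star s * s - 1) u⟫_ℂ| ≤ ‖⟪u, (star s * s - 1) u⟫_ℂ‖ := RCLike.abs_re_le_norm _
          _ ≤ ‖u‖ * ‖(star s * s - 1) u‖ := norm_inner_le_norm _ _
          _ ≤ ‖u‖ * (‖star s * s - 1‖ * ‖u‖) := by gcongr; exact ContinuousLinearMap.le_opNorm _ _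
          _ ≤ ‖u‖ * ((1 / 4) * ‖u‖) := by gcongr
          _ = _ := by ring
      rw [abs_le] at h4
      nlinarith [h4.1]
    have hx := hlow s₁ x h11
    have hy := hlow s₂ y h22
    have hcross : ‖⟪s₁ x, s₂ y⟫_ℂ‖ ≤ (1 / 4) * (‖x‖ * ‖y‖) := by
      rw [e1]
      calc ‖⟪x, (star s₁ * s₂) y⟫_ℂ‖ ≤ ‖x‖ * ‖(star s₁ * s₂) y‖ := norm_inner_le_norm _ _
        _ ≤ ‖x‖ * (‖star s₁ * s₂‖ * ‖y‖) := by gcongr; exact ContinuousLinearMap.le_opNorm _ _
        _ ≤ ‖x‖ * ((1 / 4) * ‖y‖) := by gcongr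
        _ = _ := by ring
    have hzero : ‖s₁ x + s₂ y‖ ^ 2 = 0 := by rw [hxy, norm_zero]; norm_num
    have hexp : ‖s₁ x + s₂ y‖ ^ 2 = ‖s₁ x‖ ^ 2 + 2 * RCLike.re ⟪s₁ x, s₂ y⟫_ℂ + ‖s₂ y‖ ^ 2 :=
      norm_add_sq _ _
    have hre : -((1 / 4) * (‖x‖ * ‖y‖)) ≤ RCLike.re ⟪s₁ x, s₂ y⟫_ℂ := by
      have := (RCLike.abs_re_le_norm ⟪s₁ x, s₂ y⟫_ℂ).trans hcross
      rw [abs_le] at this
      exact this.1
    have hx0 : ‖x‖ = 0 := by nlinarith [sq_nonneg (‖x‖ - ‖y‖), norm_nonneg x, norm_nonneg y, sq_nonneg ‖x‖, sq_nonneg ‖y‖]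
    have hy0 : ‖y‖ = 0 := by nlinarith [sq_nonneg (‖x‖ - ‖y‖), norm_nonneg x, norm_nonneg y, sq_nonneg ‖x‖, sq_nonneg ‖y‖]
    rw [norm_eq_zero] at hx0 hy0
    rw [hx0, hy0]; rfl
  have hdim := LinearMap.finrank_le_finrank_of_injective hinj
  rw [Module.finrank_prod] at hdim
  have h0 : Module.finrank ℂ H = 0 := by omega
  obtain ⟨ξ, hξ⟩ := hH
  rw [Module.finrank_zero_iff] at h0
  exact hξ (Subsingleton.elim _ _)

end

end Pool.Agent.H742R2
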